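import Mathlib

/-!
A uniform model of computation: loop programs over arrays of natural numbers and arrays of
complex numbers.  Every operation costs one unit of time.  There are no tests on complex numbers
and no way to turn a complex number into an integer.
-/

namespace Pool.Agent.MP_f91556_lc.AP

/-- The state: integer arrays `I a` and complex arrays `Z a` (each with three indices), the number
of operations done so far, and the largest integer computed so far. -/
structure Mem where
  I : ℕ → ℕ → ℕ → ℕ → ℕ
  Z : ℕ → ℕ → ℕ → ℕ → ℂ
  time : ℕ
  word : ℕ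

/-- A new loop counter `x` gets the name `0`; the older counters are renamed `k + 1`. -/
def push (x : ℕ) (e : ℕ → ℕ) : ℕ → ℕ
  | 0 => x
  | k + 1 => e k

/-- Write `x` into cell `(i, j, k)` of array `a`. -/
def upd {α : Type} (f : ℕ → ℕ → ℕ → ℕ → α) (a i j k : ℕ) (x : α) : ℕ → ℕ → ℕ → ℕ → α :=
  fun a' i' j' k' => if a' = a ∧ i' = i ∧ j' = j ∧ k' = k then x else f a' i' j' k'

/-- Integer expressions: constants, loop counters, array cells, `+`, truncated `-`, `*`, `/`, `%`,
and `sum n x`, a loop that adds up `x` over the counter values below `n`. -/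
inductive IE : Type
  | lit (n : ℕ) : IE
  | var (k : ℕ) : IE
  | get (a : ℕ) (i j k : IE) : IE
  | add (x y : IE) : IE
  | sub (x y : IE) : IE
  | mul (x y : IE) : IE
  | div (x y : IE) : IE
  | mod (x y : IE) : IE
  | sum (n x : IE) : IE

/-- The value of an integer expression. -/
def IE.val (M : Mem) : IE → (ℕ → ℕ) → ℕ
  | .lit n, _ => n
  | .var k, e => e k
  | .get a i j k, e => M.I a (i.val M e) (j.val M e) (k.val M e)
  | .add x y, e => x.val M e + y.val M e
  | .sub x y, e => x.val M e - y.val M e
  | .mul x y, e => x.val M e * y.val M e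
  | .div x y, e => x.val M e / y.val M e
  | .mod x y, e => x.val M e % y.val M e
  | .sum n x, e => ∑ k ∈ Finset.range (n.val M e), x.val M (push k e)

/-- The number of operations used to evaluate an integer expression. -/
def IE.cost (M : Mem) : IE → (ℕ → ℕ) → ℕ
  | .lit _, _ => 1
  | .var _, _ => 1
  | .get _ i j k, e => 1 + i.cost M e + j.cost M e + k.cost M e
  | .add x y, e => 1 + x.cost M e + y.cost M e
  | .sub x y, e => 1 + x.cost M e + y.cost M e
  | .mul x y, e => 1 + x.cost M e + y.cost M e
  | .div x y, e => 1 + x.cost M e + y.cost M e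
  | .mod x y, e => 1 + x.cost M e + y.cost M e
  | .sum n x, e => 1 + n.cost M e + ∑ k ∈ Finset.range (n.val M e), (1 + x.cost M (push k e))

/-- The largest integer that occurs while an integer expression is evaluated. -/
def IE.big (M : Mem) : IE → (ℕ → ℕ) → ℕ
  | .lit n, _ => n
  | .var k, e => e k
  | .get a i j k, e =>
      max ((IE.get a i j k).val M e) (max (i.big M e) (max (j.big M e) (k.big M e)))
  | .add x y, e => max ((IE.add x y).val M e) (max (x.big M e) (y.big M e))
  | .sub x y, e => max ((IE.sub x y).val M e) (max (x.big M e) (y.big M e))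
  | .mul x y, e => max ((IE.mul x y).val M e) (max (x.big M e) (y.big M e))
  | .div x y, e => max ((IE.div x y).val M e) (max (x.big M e) (y.big M e))
  | .mod x y, e => max ((IE.mod x y).val M e) (max (x.big M e) (y.big M e))
  | .sum n x, e => max ((IE.sum n x).val M e)
      (max (n.big M e) ((Finset.range (n.val M e)).sup fun k => x.big M (push k e)))

/-- Complex expressions: constants, array cells, `+`, `-`, `*`, `/`, an integer read as a complex
number, the root of unity `ω ^ x`, and loops that add or multiply `z` over the counter values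
below `n`. -/
inductive CE : Type
  | lit (z : ℂ) : CE
  | get (a : ℕ) (i j k : IE) : CE
  | add (x y : CE) : CE
  | sub (x y : CE) : CE
  | mul (x y : CE) : CE
  | div (x y : CE) : CE
  | cast (x : IE) : CE
  | root (x : IE) : CE
  | sum (n : IE) (z : CE) : CE
  | prod (n : IE) (z : CE) : CE

/-- The value of a complex expression. -/
noncomputable def CE.val (ω : ℂ) (M : Mem) : CE → (ℕ → ℕ) → ℂ
  | .lit z, _ => z
  | .get a i j k, e => M.Z a (i.val M e) (j.val M e) (k.val M e)
  | .add x y, e => x.val ω M e + y.val ω M e
  | .sub x y, e => x.val ω M e - y.val ω M e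
  | .mul x y, e => x.val ω M e * y.val ω M e
  | .div x y, e => x.val ω M e / y.val ω M e
  | .cast x, e => (x.val M e : ℂ)
  | .root x, e => ω ^ x.val M e
  | .sum n z, e => ∑ k ∈ Finset.range (n.val M e), z.val ω M (push k e)
  | .prod n z, e => ∏ k ∈ Finset.range (n.val M e), z.val ω M (push k e)

/-- The number of operations used to evaluate a complex expression. -/
def CE.cost (M : Mem) : CE → (ℕ → ℕ) → ℕ
  | .lit _, _ => 1
  | .get _ i j k, e => 1 + i.cost M e + j.cost M e + k.cost M e
  | .add x y, e => 1 + x.cost M e + y.cost M e
  | .sub x y, e => 1 + x.cost M e + y.cost M e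
  | .mul x y, e => 1 + x.cost M e + y.cost M e
  | .div x y, e => 1 + x.cost M e + y.cost M e
  | .cast x, e => 1 + x.cost M e
  | .root x, e => 1 + x.cost M e
  | .sum n z, e => 1 + n.cost M e + ∑ k ∈ Finset.range (n.val M e), (1 + z.cost M (push k e))
  | .prod n z, e => 1 + n.cost M e + ∑ k ∈ Finset.range (n.val M e), (1 + z.cost M (push k e))

/-- The largest integer that occurs while a complex expression is evaluated. -/
def CE.big (M : Mem) : CE → (ℕ → ℕ) → ℕ
  | .lit _, _ => 0
  | .get _ i j k, e => max (i.big M e) (max (j.big M e) (k.big M e))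
  | .add x y, e => max (x.big M e) (y.big M e)
  | .sub x y, e => max (x.big M e) (y.big M e)
  | .mul x y, e => max (x.big M e) (y.big M e)
  | .div x y, e => max (x.big M e) (y.big M e)
  | .cast x, e => x.big M e
  | .root x, e => x.big M e
  | .sum n z, e => max (n.big M e) ((Finset.range (n.val M e)).sup fun k => z.big M (push k e))
  | .prod n z, e => max (n.big M e) ((Finset.range (n.val M e)).sup fun k => z.big M (push k e))

/-- Programs: write an integer cell, write a complex cell, sequence, and `loop n p`, which runs
`p` for the counter values `0, 1, ...` below the value of `n`. -/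
inductive St : Type
  | setI (a : ℕ) (i j k x : IE) : St
  | setC (a : ℕ) (i j k : IE) (z : CE) : St
  | seq (p p' : St) : St
  | loop (n : IE) (p : St) : St

/-- The state after running a program. -/
noncomputable def St.run (ω : ℂ) : St → (ℕ → ℕ) → Mem → Mem
  | .setI a i j k x, e, M =>
      { M with
        I := upd M.I a (i.val M e) (j.val M e) (k.val M e) (x.val M e)
        time := M.time + (1 + i.cost M e + j.cost M e + k.cost M e + x.cost M e)
        word := max M.word (max (max (i.big M e) (max (j.big M e) (k.big M e))) (x.big M e)) }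
  | .setC a i j k z, e, M =>
      { M with
        Z := upd M.Z a (i.val M e) (j.val M e) (k.val M e) (z.val ω M e)
        time := M.time + (1 + i.cost M e + j.cost M e + k.cost M e + z.cost M e)
        word := max M.word (max (max (i.big M e) (max (j.big M e) (k.big M e))) (z.big M e)) }
  | .seq p p', e, M => p'.run ω e (p.run ω e M)
  | .loop n p, e, M =>
      Nat.rec { M with time := M.time + (1 + n.cost M e), word := max M.word (n.big M e) }
        (fun k M' => p.run ω (push k e) M') (n.val M e)

/-- The input.  For `i < m` the cell `(i, 0, 0)` of the integer arrays `0, 1, 2, 3` holds `m`, `d`,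
the row index `R i`, the column index `C i`, and the cell `(i, 0, 0)` of the complex array `0`
holds `v i`.  All other cells hold zero. -/
noncomputable def init (m d : ℕ) (R C : Fin m → Fin d) (v : Fin m → ℂ) : Mem where
  I := fun a i j k =>
    if h : i < m ∧ j = 0 ∧ k = 0 then
      (if a = 0 then m else if a = 1 then d else
        if a = 2 then R ⟨i, h.1⟩ else if a = 3 then C ⟨i, h.1⟩ else 0)
    else 0
  Z := fun a i j k => if h : i < m ∧ j = 0 ∧ k = 0 ∧ a = 0 then v ⟨i, h.1⟩ else 0
  time := 0
  word := 0

end Pool.Agent.MP_f91556_lc.AP
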