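import Mathlib

/-! Digit sums, a Hoeffding count, Walsh expansion of low degree, and lists of flagged indices. -/

namespace Pool.Agent.MP_f91556_lc.AP

open Finset

theorem sum_range_mul' {α : Type*} [AddCommMonoid α] (ρ A : ℕ) (f : ℕ → α) :
    ∑ y ∈ range (ρ * A), f y = ∑ y ∈ range A, ∑ k ∈ range ρ, f (ρ * y + k) := by
  induction A with
  | zero => simp
  | succ A ih => rw [Nat.mul_succ, sum_range_add, ih, sum_range_succ]

theorem sum_digits {α : Type*} [CommSemiring α] (ρ n : ℕ) (g : ℕ → ℕ → α) :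
    ∑ y ∈ range (ρ ^ n), ∏ i ∈ range n, g i (y / ρ ^ i % ρ) =
      ∏ i ∈ range n, ∑ k ∈ range ρ, g i k := by
  induction n generalizing g with
  | zero => simp
  | succ n ih =>
    rw [pow_succ', sum_range_mul', prod_range_succ', ← ih (fun i => g (i + 1)), sum_mul]
    refine sum_congr rfl fun y _ => ?_
    rw [mul_sum]
    refine sum_congr rfl fun k hk => ?_
    have hk' := mem_range.1 hk
    have hρ : 0 < ρ := by omega
    rw [prod_range_succ']
    have h0 : (ρ * y + k) / ρ ^ 0 % ρ = k := by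
      rw [pow_zero, Nat.div_one, Nat.mul_add_mod, Nat.mod_eq_of_lt hk']
    have h1 : ∀ i, (ρ * y + k) / ρ ^ (i + 1) = y / ρ ^ i := by
      intro i
      rw [pow_succ', ← Nat.div_div_eq_div_mul, Nat.mul_add_div hρ, Nat.div_eq_of_lt hk', add_zero]
    simp only [h0, h1]

theorem digits_sum (ρ n y : ℕ) (hy : y < ρ ^ n) :
    ∑ i ∈ range n, (y / ρ ^ i % ρ) * ρ ^ i = y := by
  induction n generalizing y with
  | zero => simp at hy ⊢; omega
  | succ n ih =>
    have hρ : 0 < ρ := by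
      rcases Nat.eq_zero_or_pos ρ with h | h
      · subst h; simp at hy
      · exact h
    have h1 : y / ρ < ρ ^ n := by
      rw [Nat.div_lt_iff_lt_mul hρ, ← pow_succ]; exact hy
    rw [sum_range_succ']
    have h2 : ∑ i ∈ range n, (y / ρ ^ (i + 1) % ρ) * ρ ^ (i + 1) =
        ρ * ∑ i ∈ range n, (y / ρ / ρ ^ i % ρ) * ρ ^ i := by
      rw [mul_sum]
      refine sum_congr rfl fun i _ => ?_
      rw [pow_succ', ← Nat.div_div_eq_div_mul]; ring
    rw [h2, ih _ h1]
    simp [Nat.div_add_mod]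

/-- The `i`-th binary digit of `y`. -/
def bit (y i : ℕ) : ℕ := y / 2 ^ i % 2

theorem bit_cases (y i : ℕ) : bit y i = 0 ∨ bit y i = 1 := by unfold bit; omega

theorem sum_bits {α : Type*} [CommSemiring α] (n : ℕ) (g : ℕ → ℕ → α) :
    ∑ y ∈ range (2 ^ n), ∏ i ∈ range n, g i (bit y i) = ∏ i ∈ range n, (g i 0 + g i 1) := by
  have := sum_digits 2 n g
  simpa [bit, sum_range_succ] using this

theorem hoeffding_aux (n : ℕ) (θ : ℕ → ℝ) (hθ : ∀ i, |θ i| ≤ 1) (l : ℝ) :
    ∑ y ∈ range (2 ^ n), Real.exp (l * ∑ i ∈ range n, (2 * (bit y i : ℝ) - 1) * θ i) ≤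
      2 ^ n * Real.exp (l ^ 2 * n / 2) := by
  have h1 : ∀ y, Real.exp (l * ∑ i ∈ range n, (2 * (bit y i : ℝ) - 1) * θ i) =
      ∏ i ∈ range n, Real.exp (l * ((2 * (bit y i : ℝ) - 1) * θ i)) := by
    intro y; rw [mul_sum, Real.exp_sum]
  simp only [h1]
  rw [sum_bits n (fun i k => Real.exp (l * ((2 * (k : ℝ) - 1) * θ i)))]
  calc _ ≤ ∏ _i ∈ range n, 2 * Real.exp (l ^ 2 / 2) := by
        refine prod_le_prod (fun i _ => by positivity) fun i _ => ?_
        have h2 := Real.cosh_le_exp_half_sq (l * θ i)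
        rw [Real.cosh_eq] at h2
        have h3 : (l * θ i) ^ 2 / 2 ≤ l ^ 2 / 2 := by
          have : θ i ^ 2 ≤ 1 := by rw [sq_le_one_iff_abs_le_one]; exact hθ i
          rw [mul_pow]; nlinarith [sq_nonneg l]
        have h4 := Real.exp_le_exp.2 h3
        have e0 : l * ((2 * ((0 : ℕ) : ℝ) - 1) * θ i) = -(l * θ i) := by push_cast; ring
        have e1 : l * ((2 * ((1 : ℕ) : ℝ) - 1) * θ i) = l * θ i := by push_cast; ring
        rw [e0, e1]; linarith
    _ = _ := by
        rw [prod_const, card_range, mul_pow, ← Real.exp_nat_mul]; congr 2; ring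

theorem hoeffding_count (n : ℕ) (hn : 0 < n) (θ : ℕ → ℝ) (hθ : ∀ i, |θ i| ≤ 1) (t : ℝ)
    (ht : 0 ≤ t) (F : ℕ → ℕ) (hF : ∀ y, F y ≤ 1)
    (hF' : ∀ y, F y ≠ 0 → t ≤ |∑ i ∈ range n, (2 * (bit y i : ℝ) - 1) * θ i|) :
    ((∑ y ∈ range (2 ^ n), F y : ℕ) : ℝ) ≤ 2 * 2 ^ n * Real.exp (-(t ^ 2 / (2 * n))) := by
  have hn' : (0 : ℝ) < n := by exact_mod_cast hn
  set l := t / n with hl
  have hl0 : 0 ≤ l := by positivity
  have h1 : ∀ y, (F y : ℝ) ≤ Real.exp (-(l * t)) *
      (Real.exp (l * ∑ i ∈ range n, (2 * (bit y i : ℝ) - 1) * θ i) +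
        Real.exp ((-l) * ∑ i ∈ range n, (2 * (bit y i : ℝ) - 1) * θ i)) := by
    intro y
    by_cases h : F y = 0
    · rw [h]; push_cast; positivity
    · have h2 := hF' y h
      have h3 : (F y : ℝ) ≤ 1 := by exact_mod_cast hF y
      set X := ∑ i ∈ range n, (2 * (bit y i : ℝ) - 1) * θ i
      rw [mul_add, ← Real.exp_add, ← Real.exp_add]
      have p1 := Real.exp_pos (-(l * t) + l * X)
      have p2 := Real.exp_pos (-(l * t) + -l * X)
      rcases le_abs.1 h2 with h4 | h4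
      · have := Real.add_one_le_exp (-(l * t) + l * X)
        nlinarith [mul_le_mul_of_nonneg_left h4 hl0]
      · have := Real.add_one_le_exp (-(l * t) + -l * X)
        nlinarith [mul_le_mul_of_nonneg_left h4 hl0]
  have h2 := hoeffding_aux n θ hθ l
  have h3 := hoeffding_aux n θ hθ (-l)
  rw [neg_sq] at h3
  have h4 : Real.exp (-(l * t)) * Real.exp (l ^ 2 * n / 2) = Real.exp (-(t ^ 2 / (2 * n))) := by
    rw [← Real.exp_add]; congr 1; rw [hl]; field_simp; ring
  push_cast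
  calc _ ≤ _ := sum_le_sum fun y _ => h1 y
    _ ≤ Real.exp (-(l * t)) * (2 ^ n * Real.exp (l ^ 2 * n / 2) +
          2 ^ n * Real.exp (l ^ 2 * n / 2)) := by
        rw [← mul_sum, sum_add_distrib]
        exact mul_le_mul_of_nonneg_left (add_le_add h2 h3) (Real.exp_pos _).le
    _ = _ := by rw [← h4]; ring

/-- The number of ones among the first `n` binary digits. -/
def pop (n S : ℕ) : ℕ := ∑ i ∈ range n, bit S i

theorem pop_count (n D : ℕ) (z : ℝ) (hz : 0 < z) (hz1 : z ≤ 1) (F : ℕ → ℕ) (hF : ∀ S, F S ≤ 1)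
    (hF' : ∀ S, F S ≠ 0 → pop n S ≤ D) :
    ((∑ S ∈ range (2 ^ n), F S : ℕ) : ℝ) ≤ (1 + z) ^ n / z ^ D := by
  have h1 : ∀ S, (F S : ℝ) ≤ (∏ i ∈ range n, z ^ bit S i) / z ^ D := by
    intro S
    by_cases h : F S = 0
    · rw [h]; push_cast; positivity
    · have h3 : (F S : ℝ) ≤ 1 := by exact_mod_cast hF S
      rw [prod_pow_eq_pow_sum, le_div_iff₀ (by positivity)]
      have := pow_le_pow_of_le_one hz.le hz1 (hF' S h)
      unfold pop at this
      nlinarith [pow_pos hz D]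
  push_cast
  calc _ ≤ _ := sum_le_sum fun S _ => h1 S
    _ = _ := by
      rw [← sum_div, sum_bits n (fun _ k => z ^ k)]; simp

/-- The Walsh character. -/
noncomputable def chi (n y S : ℕ) : ℂ := ∏ i ∈ range n, (1 - 2 * ((bit y i * bit S i : ℕ) : ℂ))

theorem chi_orth (n y T : ℕ) (hy : y < 2 ^ n) (hT : T < 2 ^ n) :
    ∑ S ∈ range (2 ^ n), chi n y S * chi n T S = if y = T then 2 ^ n else 0 := by
  unfold chi
  simp only [← prod_mul_distrib]
  rw [sum_bits n (fun i k => (1 - 2 * ((bit y i * k : ℕ) : ℂ)) * (1 - 2 * ((bit T i * k : ℕ) : ℂ)))]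
  split_ifs with h
  · subst h
    rw [prod_congr rfl (g := fun _ => (2 : ℂ)), prod_const, card_range]
    intro i _
    rcases bit_cases y i with h | h <;> rw [h] <;> norm_num
  · have : ∃ i ∈ range n, bit y i ≠ bit T i := by
      by_contra hc
      push Not at hc
      apply h
      rw [← digits_sum 2 n y hy, ← digits_sum 2 n T hT]
      exact sum_congr rfl fun i hi => congrArg (· * 2 ^ i) (hc i hi)
    obtain ⟨i, hi, hne⟩ := this
    refine prod_eq_zero hi ?_
    rcases bit_cases y i with h1 | h1 <;> rcases bit_cases T i with h2 | h2 <;>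
      first | exact absurd (h1.trans h2.symm) hne | (rw [h1, h2]; norm_num)

theorem walsh_inv (n y : ℕ) (hy : y < 2 ^ n) (f : ℕ → ℂ) :
    ∑ S ∈ range (2 ^ n), chi n y S * ((∑ T ∈ range (2 ^ n), chi n T S * f T) / 2 ^ n) = f y := by
  have : ∀ S, chi n y S * ((∑ T ∈ range (2 ^ n), chi n T S * f T) / 2 ^ n) =
      ∑ T ∈ range (2 ^ n), chi n y S * chi n T S * (f T / 2 ^ n) := by
    intro S; rw [sum_div, mul_sum]; exact sum_congr rfl fun T _ => by ring
  simp only [this]
  rw [sum_comm]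
  simp only [← sum_mul]
  rw [sum_congr rfl (g := fun T => if y = T then f T else 0), sum_ite_eq, if_pos (mem_range.2 hy)]
  intro T hT
  rw [chi_orth n y T hy (mem_range.1 hT)]
  split_ifs
  · field_simp
  · simp

theorem walsh_vanish (n S k : ℕ) (hk : k < pop n S) (x0 : ℂ) (ψ : ℕ → ℂ) :
    ∑ T ∈ range (2 ^ n), chi n T S * (x0 + ∑ i ∈ range n, (bit T i : ℂ) * ψ i) ^ k = 0 := by
  let E : ℂ → PowerSeries ℂ := fun a => PowerSeries.rescale a (PowerSeries.exp ℂ)
  have hE : ∀ a b, E a * E b = E (a + b) := fun a b => PowerSeries.exp_mul_exp_eq_exp_add a b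
  have hc : ∀ a j, PowerSeries.coeff j (E a) = a ^ j / (j.factorial : ℂ) := by
    intro a j
    simp only [E, PowerSeries.coeff_rescale, PowerSeries.coeff_exp]
    simp [div_eq_mul_inv]
  have hE0 : E 0 = 1 := by
    ext j
    rw [hc, PowerSeries.coeff_one]
    rcases j with _ | j <;> simp
  have hs : ∀ (a : ℕ → ℂ) (n : ℕ), E (∑ i ∈ range n, a i) = ∏ i ∈ range n, E (a i) := by
    intro a n
    induction n with
    | zero => simpa using hE0
    | succ n ih => rw [sum_range_succ, prod_range_succ, ← ih, hE]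
  have key : ∑ T ∈ range (2 ^ n), PowerSeries.C (chi n T S) *
      E (x0 + ∑ i ∈ range n, (bit T i : ℂ) * ψ i) =
      E x0 * ∏ i ∈ range n, (1 + PowerSeries.C (1 - 2 * (bit S i : ℂ)) * E (ψ i)) := by
    have := sum_bits n (fun i k =>
      PowerSeries.C (1 - 2 * ((k * bit S i : ℕ) : ℂ)) * E ((k : ℂ) * ψ i))
    simp only [zero_mul, one_mul, Nat.cast_zero, Nat.cast_one, mul_zero, sub_zero, map_one,
      hE0] at this
    rw [← this, mul_sum]
    refine sum_congr rfl fun T _ => ?_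
    rw [← hE, hs, prod_mul_distrib, chi, map_prod]; ring
  have hd : (PowerSeries.X : PowerSeries ℂ) ^ pop n S ∣
      ∏ i ∈ range n, (1 + PowerSeries.C (1 - 2 * (bit S i : ℂ)) * E (ψ i)) := by
    rw [pop, ← prod_pow_eq_pow_sum]
    refine prod_dvd_prod_of_dvd _ _ fun i _ => ?_
    rcases bit_cases S i with h | h <;> rw [h]
    · simp
    · rw [pow_one, PowerSeries.X_dvd_iff, ← PowerSeries.coeff_zero_eq_constantCoeff_apply]
      rw [map_add, PowerSeries.coeff_C_mul, hc]; norm_num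
  have h0 := (PowerSeries.X_pow_dvd_iff.1 (hd.mul_left (E x0))) k hk
  rw [← key, map_sum] at h0
  simp only [PowerSeries.coeff_C_mul, hc, ← mul_div_assoc] at h0
  rw [← sum_div] at h0
  have hf : (k.factorial : ℂ) ≠ 0 := by exact_mod_cast k.factorial_ne_zero
  exact (div_eq_zero_iff.1 h0).resolve_right hf

theorem prod_div_succ (x : ℂ) (k : ℕ) :
    ∏ l ∈ range k, x / ((l + 1 : ℕ) : ℂ) = x ^ k / (k.factorial : ℂ) := by
  induction k with
  | zero => simp
  | succ k ih =>
    rw [prod_range_succ, ih, Nat.factorial_succ, pow_succ, div_mul_div_comm, Nat.cast_mul,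
      mul_comm ((k + 1 : ℕ) : ℂ)]

theorem prod_err (q : ℕ) (H e : ℕ → ℂ) (ε : ℝ) (hε : ε ≤ 1) (he : ∀ j < q, ‖e j‖ = 1)
    (hH : ∀ j < q, ‖H j - e j‖ ≤ ε) :
    ‖∏ j ∈ range q, H j - ∏ j ∈ range q, e j‖ ≤ (2 ^ q - 1) * ε := by
  induction q with
  | zero => simp
  | succ q ih =>
    have h1 := ih (fun j hj => he j (by omega)) (fun j hj => hH j (by omega))
    have h2 := hH q (by omega)
    have h3 : ‖H q‖ ≤ 2 := by
      have := norm_add_le (H q - e q) (e q)
      rw [sub_add_cancel, he q (by omega)] at this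
      linarith
    have h4 : ‖∏ j ∈ range q, e j‖ = 1 := by
      rw [norm_prod]; exact prod_eq_one fun j hj => he j (by have := mem_range.1 hj; omega)
    rw [prod_range_succ, prod_range_succ]
    have h5 : (∏ j ∈ range q, H j) * H q - (∏ j ∈ range q, e j) * e q =
        (∏ j ∈ range q, H j - ∏ j ∈ range q, e j) * H q + (∏ j ∈ range q, e j) * (H q - e q) := by
      ring
    rw [h5]
    refine (norm_add_le _ _).trans ?_
    rw [norm_mul, norm_mul, h4, pow_succ]
    nlinarith [norm_nonneg (∏ j ∈ range q, H j - ∏ j ∈ range q, e j), norm_nonneg (H q)]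

theorem first_flag (q : ℕ) (a : ℕ → ℂ) :
    ∑ j ∈ range q, a j * ∏ j' ∈ range j, (1 - a j') = 1 - ∏ j ∈ range q, (1 - a j) := by
  induction q with
  | zero => simp
  | succ q ih => rw [sum_range_succ, prod_range_succ, ih]; ring

/-- One more than the largest flagged index below `k`, or `0`. -/
def pvF (F : ℕ → ℕ) : ℕ → ℕ
  | 0 => 0
  | k + 1 => F k * (k + 1) + (1 - F k) * pvF F k

/-- The flagged indices below `n` in decreasing order, each increased by one. -/
def lstF (F : ℕ → ℕ) (n : ℕ) : ℕ → ℕ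
  | 0 => pvF F n
  | l + 1 => pvF F (lstF F n l - 1)

theorem pvF_le (F : ℕ → ℕ) (hF : ∀ k, F k ≤ 1) (k : ℕ) : pvF F k ≤ k := by
  induction k with
  | zero => simp [pvF]
  | succ k ih =>
    rcases Nat.le_one_iff_eq_zero_or_eq_one.1 (hF k) with h | h <;> simp [pvF, h]
    omega

theorem lstF_le (F : ℕ → ℕ) (hF : ∀ k, F k ≤ 1) (n l : ℕ) : lstF F n l ≤ n := by
  induction l with
  | zero => exact pvF_le F hF n
  | succ l ih => exact (pvF_le F hF _).trans (by omega)

theorem lstF_succ_zero (F : ℕ → ℕ) (n : ℕ) (h : F n = 0) (l : ℕ) :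
    lstF F (n + 1) l = lstF F n l := by
  induction l with
  | zero => simp [lstF, pvF, h]
  | succ l ih => simp [lstF, ih]

theorem lstF_succ_one (F : ℕ → ℕ) (n : ℕ) (h : F n = 1) (l : ℕ) :
    lstF F (n + 1) 0 = n + 1 ∧ lstF F (n + 1) (l + 1) = lstF F n l := by
  have h0 : lstF F (n + 1) 0 = n + 1 := by simp [lstF, pvF, h]
  refine ⟨h0, ?_⟩
  induction l with
  | zero =>
    show pvF F (lstF F (n + 1) 0 - 1) = pvF F n
    rw [h0]; rfl
  | succ l ih =>
    show pvF F (lstF F (n + 1) (l + 1) - 1) = pvF F (lstF F n l - 1)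
    rw [ih]

theorem lstF_sum {α : Type*} [Semiring α] (F : ℕ → ℕ) (hF : ∀ k, F k ≤ 1) (n : ℕ) (g : ℕ → α) :
    ∑ l ∈ range (∑ k ∈ range n, F k), g (lstF F n l - 1) = ∑ k ∈ range n, (F k : α) * g k := by
  induction n with
  | zero => simp
  | succ n ih =>
    rw [sum_range_succ F, sum_range_succ (fun k => (F k : α) * g k), ← ih]
    rcases Nat.le_one_iff_eq_zero_or_eq_one.1 (hF n) with h | h
    · simp [h, lstF_succ_zero F n h]
    · rw [h, sum_range_succ', (lstF_succ_one F n h 0).1]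
      simp [fun l => (lstF_succ_one F n h l).2]

theorem lstF_mem (F : ℕ → ℕ) (hF : ∀ k, F k ≤ 1) (n l : ℕ) (hl : l < ∑ k ∈ range n, F k) :
    lstF F n l - 1 < n ∧ F (lstF F n l - 1) = 1 := by
  induction n generalizing l with
  | zero => simp at hl
  | succ n ih =>
    rw [sum_range_succ] at hl
    rcases Nat.le_one_iff_eq_zero_or_eq_one.1 (hF n) with h | h
    · rw [lstF_succ_zero F n h]
      have := ih l (by omega)
      exact ⟨by omega, this.2⟩
    · rcases l with _ | l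
      · rw [(lstF_succ_one F n h 0).1]; exact ⟨by omega, h⟩
      · rw [(lstF_succ_one F n h l).2]
        have := ih l (by omega)
        exact ⟨by omega, this.2⟩

theorem cnt_le (F : ℕ → ℕ) (hF : ∀ k, F k ≤ 1) (n : ℕ) : ∑ k ∈ range n, F k ≤ n := by
  simpa using sum_le_card_nsmul (range n) F 1 fun k _ => hF k

end Pool.Agent.MP_f91556_lc.AP
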