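import Mathlib
import Pool.Agent.MP_f91556_lc.AP.Math

/-! The tables computed by the program, as functions, and the error of the output. -/

namespace Pool.Agent.MP_f91556_lc.AP

open Finset

/-- The constants of the program and the input. -/
structure Dat where
  q : ℕ
  Q1 : ℕ
  Q2 : ℕ
  m : ℕ
  d : ℕ
  R : ℕ → ℕ
  C : ℕ → ℕ
  v : ℕ → ℂ

/-- `1` if `x ≤ y`, else `0`. -/
def le1 (x y : ℕ) : ℕ := 1 - (x - y)

theorem le1_le (x y : ℕ) : le1 x y ≤ 1 := by unfold le1; omega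

namespace Dat

variable (A : Dat)

def b : ℕ := Nat.log 16 A.m
def n : ℕ := A.b + 1
def B : ℕ := 2 ^ A.b
def N : ℕ := 2 ^ A.n
def D : ℕ := A.n / A.Q1
def t : ℕ := A.n / A.Q2
def be (j c : ℕ) : ℕ := A.B ^ j * A.C c % A.d
def rh (j c i : ℕ) : ℕ := 2 ^ i * A.be j c % A.d
def s (j y c : ℕ) : ℕ := ∑ i ∈ range A.n, bit y i * A.rh j c i
def Sg (j c : ℕ) : ℕ := ∑ i ∈ range A.n, A.rh j c i
def atp (j y c : ℕ) : ℕ :=
  1 - le1 (2 * A.s j y c) (A.Sg j c + A.t * A.d) * le1 (A.Sg j c) (2 * A.s j y c + A.t * A.d)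
def cnt (j y : ℕ) : ℕ := ∑ c ∈ range A.m, A.atp j y c
def dg (j r : ℕ) : ℕ := A.R r / A.B ^ j % A.B
def NN (j a : ℕ) : ℕ := ∑ r ∈ range A.m, A.cnt j (A.dg j r + a)
def gf (j a : ℕ) : ℕ := le1 (A.B * A.NN j a) (∑ a' ∈ range A.B, A.NN j a')
def sh (j : ℕ) : ℕ := pvF (A.gf j) A.B - 1
def y (j r : ℕ) : ℕ := A.dg j r + A.sh j
def pf (S : ℕ) : ℕ := le1 (pop A.n S + 1) A.D
def rk : ℕ := ∑ S ∈ range A.N, A.pf S
def tg (t j : ℕ) : ℕ := lstF A.pf A.N (t / A.rk ^ j % A.rk) - 1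
noncomputable def om : ℂ := Complex.exp (-2 * Real.pi * Complex.I / A.d)
noncomputable def x (j y c : ℕ) : ℂ :=
  (((A.Sg j c / 2 : ℕ) : ℂ) - (A.s j y c : ℂ)) * (2 * Real.pi * Complex.I) / A.d
noncomputable def H (j y c : ℕ) : ℂ :=
  A.om ^ (A.Sg j c / 2) * (∑ k ∈ range A.D, ∏ l ∈ range k, A.x j y c / ((l + 1 : ℕ) : ℂ)) /
    A.om ^ (A.sh j * A.be j c)
noncomputable def G (j S c : ℕ) : ℂ := (∑ T ∈ range A.N, chi A.n T S * A.H j T c) / (A.N : ℂ)
noncomputable def U (t : ℕ) : ℂ := ∑ c ∈ range A.m, A.v c * ∏ j ∈ range A.q, A.G j (A.tg t j) c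
noncomputable def corr (r j c : ℕ) : ℂ :=
  (∏ j' ∈ range j, (1 - (A.atp j' (A.y j' r) c : ℂ))) *
    (A.v c * (A.om ^ (A.R r * A.C c) - ∏ j' ∈ range A.q, A.H j' (A.y j' r) c))
noncomputable def out (r : ℕ) : ℂ :=
  ∑ t ∈ range (A.rk ^ A.q), A.U t * ∏ j ∈ range A.q, chi A.n (A.y j r) (A.tg t j) +
    ∑ j ∈ range A.q, ∑ l ∈ range (A.cnt j (A.y j r)),
      A.corr r j (lstF (A.atp j (A.y j r)) A.m l - 1)

theorem B_pos : 0 < A.B := Nat.pos_of_ne_zero (by unfold B; positivity)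
theorem N_eq : A.N = 2 * A.B := by unfold N n B; ring
theorem atp_le (j y c : ℕ) : A.atp j y c ≤ 1 := Nat.sub_le _ _
theorem gf_le (j a : ℕ) : A.gf j a ≤ 1 := le1_le _ _
theorem pf_le (S : ℕ) : A.pf S ≤ 1 := le1_le _ _
theorem dg_lt (j r : ℕ) : A.dg j r < A.B := Nat.mod_lt _ A.B_pos
theorem cnt_le_m (j y : ℕ) : A.cnt j y ≤ A.m := cnt_le _ (A.atp_le j y) _
theorem rk_le : A.rk ≤ A.N := cnt_le _ A.pf_le _

theorem sh_spec (j : ℕ) :
    A.sh j < A.B ∧ A.B * A.NN j (A.sh j) ≤ ∑ a ∈ range A.B, A.NN j a := by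
  have h : 0 < ∑ a ∈ range A.B, A.gf j a := by
    by_contra hc
    have h0 : ∀ a ∈ range A.B, A.gf j a = 0 := sum_eq_zero_iff.1 (by omega)
    have h1 : ∑ _a ∈ range A.B, ∑ a' ∈ range A.B, A.NN j a' <
        ∑ a ∈ range A.B, A.B * A.NN j a := by
      refine sum_lt_sum_of_nonempty (nonempty_range_iff.2 A.B_pos.ne') fun a ha => ?_
      have := h0 a ha
      unfold gf le1 at this
      omega
    rw [sum_const, card_range, ← mul_sum] at h1
    simp at h1
  have := lstF_mem (A.gf j) (A.gf_le j) A.B 0 h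
  refine ⟨this.1, ?_⟩
  have h2 : A.gf j (A.sh j) = 1 := this.2
  unfold gf le1 at h2
  omega

theorem y_lt (j r : ℕ) : A.y j r < A.N := by
  have := A.dg_lt j r
  have := (A.sh_spec j).1
  rw [A.N_eq]; unfold y; omega

theorem tg_lt (t j : ℕ) (h : 0 < A.rk) : A.tg t j < A.N :=
  (lstF_mem A.pf A.pf_le A.N _ (Nat.mod_lt _ h)).1

theorem atp_count (hd : 0 < A.d) (j c : ℕ) :
    ((∑ y ∈ range A.N, A.atp j y c : ℕ) : ℝ) ≤
      2 * A.N * Real.exp (-((A.t : ℝ) ^ 2 / (2 * A.n))) := by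
  have hd' : (0 : ℝ) < A.d := by exact_mod_cast hd
  have := hoeffding_count A.n (Nat.succ_pos _) (fun i => (A.rh j c i : ℝ) / A.d)
    (fun i => by
      rw [abs_of_nonneg (by positivity), div_le_one hd']
      exact_mod_cast (Nat.mod_lt _ hd).le)
    A.t (by positivity) (fun y => A.atp j y c) (fun y => A.atp_le j y c) (fun y hy => by
      have h1 : ∑ i ∈ range A.n, (2 * (bit y i : ℝ) - 1) * ((A.rh j c i : ℝ) / A.d) =
          (2 * (A.s j y c : ℝ) - A.Sg j c) / A.d := by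
        unfold s Sg
        push_cast
        rw [mul_sum, ← sum_sub_distrib, sum_div]
        exact sum_congr rfl fun i _ => by ring
      rw [h1, abs_div, abs_of_pos hd', le_div_iff₀ hd', le_abs]
      have h2 : A.Sg j c + A.t * A.d ≤ 2 * A.s j y c ∨ 2 * A.s j y c + A.t * A.d ≤ A.Sg j c := by
        by_contra hc
        apply hy
        have e1 : le1 (2 * A.s j y c) (A.Sg j c + A.t * A.d) = 1 := by unfold le1; omega
        have e2 : le1 (A.Sg j c) (2 * A.s j y c + A.t * A.d) = 1 := by unfold le1; omega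
        simp only [atp, e1, e2]
      rcases h2 with h | h
      · left; have : ((A.Sg j c + A.t * A.d : ℕ) : ℝ) ≤ (2 * A.s j y c : ℕ) := by exact_mod_cast h
        push_cast at this; linarith
      · right; have : ((2 * A.s j y c + A.t * A.d : ℕ) : ℝ) ≤ (A.Sg j c : ℕ) := by exact_mod_cast h
        push_cast at this; linarith)
  have hN : (A.N : ℝ) = 2 ^ A.n := by unfold N; push_cast; ring
  rw [hN]; exact this

theorem NN_bound (hd : 0 < A.d) (j : ℕ) :
    (A.NN j (A.sh j) : ℝ) ≤ 4 * A.m ^ 2 * Real.exp (-((A.t : ℝ) ^ 2 / (2 * A.n))) := by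
  set E := Real.exp (-((A.t : ℝ) ^ 2 / (2 * A.n)))
  have h1 : ∑ a ∈ range A.B, A.NN j a ≤ A.m * ∑ y ∈ range A.N, A.cnt j y := by
    unfold NN
    rw [sum_comm]
    have := sum_le_card_nsmul (range A.m) (fun r => ∑ a ∈ range A.B, A.cnt j (A.dg j r + a))
      (∑ y ∈ range A.N, A.cnt j y) (fun r _ => by
        have h := sum_Ico_eq_sum_range (A.cnt j) (A.dg j r) (A.dg j r + A.B)
        rw [Nat.add_sub_cancel_left] at h
        rw [← h]
        refine sum_le_sum_of_subset fun y hy => ?_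
        have := A.dg_lt j r
        rw [mem_Ico] at hy
        rw [mem_range, A.N_eq]; omega)
    simpa using this
  have h2 : ((∑ y ∈ range A.N, A.cnt j y : ℕ) : ℝ) ≤ A.m * (2 * A.N * E) := by
    unfold cnt
    rw [sum_comm, Nat.cast_sum]
    have := sum_le_card_nsmul (range A.m) (fun c => ((∑ y ∈ range A.N, A.atp j y c : ℕ) : ℝ))
      (2 * A.N * E) (fun c _ => A.atp_count hd j c)
    simpa using this
  have h3 : ((A.B * A.NN j (A.sh j) : ℕ) : ℝ) ≤ (A.m * ∑ y ∈ range A.N, A.cnt j y : ℕ) := by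
    exact_mod_cast (A.sh_spec j).2.trans h1
  rw [Nat.cast_mul, Nat.cast_mul] at h3
  have hB : (0 : ℝ) < A.B := by exact_mod_cast A.B_pos
  have hN : (A.N : ℝ) = 2 * A.B := by exact_mod_cast A.N_eq
  have h4 := mul_le_mul_of_nonneg_left h2 (Nat.cast_nonneg A.m)
  rw [hN] at h4
  refine le_of_mul_le_mul_left (h3.trans (h4.trans (le_of_eq ?_))) hB
  ring

theorem G_zero (j S c : ℕ) (h : A.pf S = 0) : A.G j S c = 0 := by
  have hD : A.D ≤ pop A.n S := by unfold pf le1 at h; omega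
  unfold G
  rw [div_eq_zero_iff]; left
  have hx : ∀ T, A.x j T c = ((A.Sg j c / 2 : ℕ) : ℂ) * (2 * Real.pi * Complex.I) / A.d +
      ∑ i ∈ range A.n, (bit T i : ℂ) * (-(A.rh j c i : ℂ) * (2 * Real.pi * Complex.I) / A.d) := by
    intro T
    unfold x s
    rw [sub_mul, sub_div, sub_eq_add_neg, Nat.cast_sum, sum_mul, sum_div, ← sum_neg_distrib]
    congr 1
    exact sum_congr rfl fun i _ => by push_cast; ring
  have h1 : ∀ T, chi A.n T S * A.H j T c = ∑ k ∈ range A.D,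
      (A.om ^ (A.Sg j c / 2) / (k.factorial : ℂ) / A.om ^ (A.sh j * A.be j c)) *
        (chi A.n T S * A.x j T c ^ k) := by
    intro T
    unfold H
    rw [mul_sum, sum_div, mul_sum]
    exact sum_congr rfl fun k _ => by rw [prod_div_succ]; ring
  simp only [h1]
  rw [sum_comm]
  refine sum_eq_zero fun k hk => ?_
  rw [← mul_sum]
  simp only [hx]
  unfold N
  rw [walsh_vanish A.n S k (by have := mem_range.1 hk; omega), mul_zero]

theorem H_lowrank (j y c : ℕ) (hy : y < A.N) :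
    ∑ k ∈ range A.rk, chi A.n y (lstF A.pf A.N k - 1) * A.G j (lstF A.pf A.N k - 1) c =
      A.H j y c := by
  unfold rk
  rw [lstF_sum A.pf A.pf_le A.N (fun S => chi A.n y S * A.G j S c),
    ← walsh_inv A.n y hy (fun T => A.H j T c)]
  refine sum_congr rfl fun S _ => ?_
  have hG : A.G j S c = (∑ T ∈ range (2 ^ A.n), chi A.n T S * A.H j T c) / 2 ^ A.n := by
    unfold G N; push_cast; rfl
  rw [← hG]
  rcases Nat.le_one_iff_eq_zero_or_eq_one.1 (A.pf_le S) with h | h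
  · rw [A.G_zero j S c h]; simp
  · rw [h]; simp

theorem main_part (r : ℕ) :
    ∑ t ∈ range (A.rk ^ A.q), A.U t * ∏ j ∈ range A.q, chi A.n (A.y j r) (A.tg t j) =
      ∑ c ∈ range A.m, A.v c * ∏ j ∈ range A.q, A.H j (A.y j r) c := by
  unfold U
  simp only [sum_mul]
  rw [sum_comm]
  refine sum_congr rfl fun c _ => ?_
  simp only [mul_assoc, ← prod_mul_distrib]
  rw [← mul_sum]
  congr 1
  have := sum_digits A.rk A.q (fun j k =>
    chi A.n (A.y j r) (lstF A.pf A.N k - 1) * A.G j (lstF A.pf A.N k - 1) c)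
  simp only [A.H_lowrank _ _ c (A.y_lt _ r)] at this
  rw [← this]
  exact sum_congr rfl fun t _ => prod_congr rfl fun j _ => mul_comm _ _

theorem out_sub (r : ℕ) :
    A.out r - ∑ c ∈ range A.m, A.v c * A.om ^ (A.R r * A.C c) =
      ∑ c ∈ range A.m, (∏ j ∈ range A.q, (1 - (A.atp j (A.y j r) c : ℂ))) *
        (A.v c * (∏ j ∈ range A.q, A.H j (A.y j r) c - A.om ^ (A.R r * A.C c))) := by
  unfold out
  rw [A.main_part]
  have h1 : ∀ j, ∑ l ∈ range (A.cnt j (A.y j r)), A.corr r j (lstF (A.atp j (A.y j r)) A.m l - 1) =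
      ∑ c ∈ range A.m, (A.atp j (A.y j r) c : ℂ) * A.corr r j c :=
    fun j => lstF_sum _ (A.atp_le j _) A.m (A.corr r j)
  simp only [h1]
  rw [sum_comm, ← sum_add_distrib, ← sum_sub_distrib]
  refine sum_congr rfl fun c _ => ?_
  unfold corr
  simp only [← mul_assoc]
  rw [← sum_mul, ← sum_mul, first_flag A.q (fun j => (A.atp j (A.y j r) c : ℂ))]
  ring

theorem om_pow (hd : 0 < A.d) : A.om ^ A.d = 1 := by
  have hd' : (A.d : ℂ) ≠ 0 := by exact_mod_cast hd.ne'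
  unfold om
  rw [← Complex.exp_nat_mul]
  have : (A.d : ℂ) * (-2 * Real.pi * Complex.I / A.d) = -(2 * Real.pi * Complex.I) := by
    field_simp
  rw [this, Complex.exp_neg, Complex.exp_two_pi_mul_I, inv_one]

theorem om_norm : ‖A.om‖ = 1 := by
  unfold om
  have : (-2 * Real.pi * Complex.I / A.d : ℂ) = ((-2 * Real.pi / A.d : ℝ) : ℂ) * Complex.I := by
    push_cast; ring
  rw [this, Complex.norm_exp_ofReal_mul_I]

theorem om_mod (hd : 0 < A.d) (a k : ℕ) : A.om ^ (a * (k % A.d)) = A.om ^ (a * k) := by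
  rw [mul_comm a, mul_comm a, pow_mul, pow_mul, ← pow_eq_pow_mod k (A.om_pow hd)]

theorem om_s (hd : 0 < A.d) (j y c : ℕ) (hy : y < A.N) :
    A.om ^ A.s j y c = A.om ^ (y * A.be j c) := by
  conv_rhs => rw [← digits_sum 2 A.n y hy, sum_mul]
  unfold s
  rw [← prod_pow_eq_pow_sum, ← prod_pow_eq_pow_sum]
  refine prod_congr rfl fun i _ => ?_
  rw [rh, A.om_mod hd, mul_assoc]; rfl

theorem om_split (hd : 0 < A.d) (r c : ℕ) (hr : A.R r < A.B ^ A.q) :
    A.om ^ (A.R r * A.C c) = ∏ j ∈ range A.q, A.om ^ (A.dg j r * A.be j c) := by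
  conv_lhs => rw [← digits_sum A.B A.q (A.R r) hr, sum_mul, ← prod_pow_eq_pow_sum]
  refine prod_congr rfl fun j _ => ?_
  rw [be, A.om_mod hd, mul_assoc]; rfl

theorem H_err (hd : 0 < A.d) (hD : 8 * (A.t + 2) ≤ A.D) (j r c : ℕ)
    (h : A.atp j (A.y j r) c = 0) :
    ‖A.H j (A.y j r) c - A.om ^ (A.dg j r * A.be j c)‖ ≤
      (4 * ((A.t : ℝ) + 2)) ^ A.D / (A.D.factorial : ℝ) * 2 := by
  set y := A.y j r with hy
  have hd' : (0 : ℝ) < A.d := by exact_mod_cast hd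
  have hdc : (A.d : ℂ) ≠ 0 := by exact_mod_cast hd.ne'
  have ho : A.om ≠ 0 := Complex.exp_ne_zero _
  have h1 : 2 * A.s j y c ≤ A.Sg j c + A.t * A.d ∧ A.Sg j c ≤ 2 * A.s j y c + A.t * A.d := by
    by_contra hc
    have : le1 (2 * A.s j y c) (A.Sg j c + A.t * A.d) = 0 ∨
        le1 (A.Sg j c) (2 * A.s j y c + A.t * A.d) = 0 := by unfold le1; omega
    unfold atp at h
    rcases this with h' | h' <;> simp [h'] at h
  have h2 : ‖A.x j y c‖ ≤ 4 * ((A.t : ℝ) + 2) := by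
    have e : A.x j y c = (((((A.Sg j c / 2 : ℕ) : ℝ) - A.s j y c) * (2 * Real.pi) / A.d : ℝ) : ℂ) *
        Complex.I := by unfold x; push_cast; ring
    rw [e, norm_mul, Complex.norm_I, mul_one, Complex.norm_real, Real.norm_eq_abs, abs_div,
      abs_mul, abs_of_pos hd', abs_of_pos Real.two_pi_pos, div_le_iff₀ hd']
    have a1 : 2 * (A.Sg j c / 2) ≤ 2 * A.s j y c + A.t * A.d := by omega
    have a2 : 2 * A.s j y c ≤ 2 * (A.Sg j c / 2) + A.t * A.d + 1 := by omega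
    have b1 : (2 : ℝ) * (A.Sg j c / 2 : ℕ) ≤ 2 * A.s j y c + A.t * A.d := by exact_mod_cast a1
    have b2 : (2 : ℝ) * A.s j y c ≤ 2 * (A.Sg j c / 2 : ℕ) + A.t * A.d + 1 := by exact_mod_cast a2
    have b3 : (1 : ℝ) ≤ A.d := by exact_mod_cast hd
    have b4 : |((A.Sg j c / 2 : ℕ) : ℝ) - A.s j y c| ≤ (A.t * A.d + 2 * A.d) / 2 := by
      rw [abs_le]; constructor <;> linarith
    have b5 : 2 * Real.pi ≤ 8 := by linarith [Real.pi_le_four]
    exact (mul_le_mul b4 b5 Real.two_pi_pos.le (by positivity)).trans (le_of_eq (by ring))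
  have h3 : A.om ^ (A.dg j r * A.be j c) =
      A.om ^ (A.Sg j c / 2) * Complex.exp (A.x j y c) / A.om ^ (A.sh j * A.be j c) := by
    rw [eq_div_iff (pow_ne_zero _ ho), ← pow_add, ← add_mul]
    show A.om ^ (y * A.be j c) = _
    rw [← A.om_s hd j y c (A.y_lt j r)]
    unfold om
    rw [← Complex.exp_nat_mul, ← Complex.exp_nat_mul, ← Complex.exp_add]
    congr 1
    unfold x
    field_simp
    ring
  rw [h3]
  unfold H
  rw [← sub_div, ← mul_sub, norm_div, norm_mul, norm_pow, norm_pow, A.om_norm, one_pow, one_pow,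
    one_mul, div_one, norm_sub_rev]
  simp only [prod_div_succ]
  have h4 : (8 : ℝ) * (A.t + 2) ≤ A.D := by exact_mod_cast hD
  refine (Complex.exp_bound' (n := A.D) ?_).trans ?_
  · rw [div_le_iff₀ (by positivity)]; push_cast; linarith
  · gcongr

theorem out_err (hd : 0 < A.d) (hD : 8 * (A.t + 2) ≤ A.D) (η : ℝ) (hη : η ≤ 1)
    (hε : (4 * ((A.t : ℝ) + 2)) ^ A.D / (A.D.factorial : ℝ) * 2 * 2 ^ A.q ≤ η) (r : ℕ)
    (hr : A.R r < A.B ^ A.q) :
    ‖A.out r - ∑ c ∈ range A.m, A.v c * A.om ^ (A.R r * A.C c)‖ ≤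
      (∑ c ∈ range A.m, ‖A.v c‖) * η := by
  set ε := (4 * ((A.t : ℝ) + 2)) ^ A.D / (A.D.factorial : ℝ) * 2
  have hε0 : 0 ≤ ε := by positivity
  have hq : (1 : ℝ) ≤ 2 ^ A.q := one_le_pow₀ (by norm_num)
  have hη0 : 0 ≤ η := le_trans (by positivity) hε
  rw [A.out_sub, sum_mul]
  refine (norm_sum_le _ _).trans (sum_le_sum fun c _ => ?_)
  by_cases h : ∀ j < A.q, A.atp j (A.y j r) c = 0
  · rw [prod_eq_one (fun j hj => by rw [h j (mem_range.1 hj)]; simp), one_mul, norm_mul,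
      A.om_split hd r c hr]
    refine mul_le_mul_of_nonneg_left ?_ (norm_nonneg _)
    refine (prod_err A.q _ _ ε (by nlinarith) (fun j _ => by rw [norm_pow, A.om_norm, one_pow])
      (fun j hj => A.H_err hd hD j r c (h j hj))).trans ?_
    nlinarith
  · push Not at h
    obtain ⟨j, hj, h⟩ := h
    have h1 : A.atp j (A.y j r) c = 1 := by have := A.atp_le j (A.y j r) c; omega
    rw [prod_eq_zero (mem_range.2 hj) (by rw [h1]; simp), zero_mul, norm_zero]
    positivity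

end Dat

end Pool.Agent.MP_f91556_lc.AP
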