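import Mathlib
import Pool.Agent.MP_f91556_lc.AP.Defs

/-! An auxiliary semantics used in the proofs. -/

namespace Pool.Agent.MP_f91556_lc.AP

/-- The same run, where `word` records the stored integers only. -/
noncomputable def St.run0 (ω : ℂ) : St → (ℕ → ℕ) → Mem → Mem
  | .setI a i j k x, e, M =>
      { M with
        I := upd M.I a (i.val M e) (j.val M e) (k.val M e) (x.val M e)
        time := M.time + (1 + i.cost M e + j.cost M e + k.cost M e + x.cost M e)
        word := max M.word (x.val M e) }
  | .setC a i j k z, e, M =>
      { M with
        Z := upd M.Z a (i.val M e) (j.val M e) (k.val M e) (z.val ω M e)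
        time := M.time + (1 + i.cost M e + j.cost M e + k.cost M e + z.cost M e) }
  | .seq p p', e, M => p'.run0 ω e (p.run0 ω e M)
  | .loop n p, e, M =>
      Nat.rec { M with time := M.time + (1 + n.cost M e) }
        (fun k M' => p.run0 ω (push k e) M') (n.val M e)

end Pool.Agent.MP_f91556_lc.AP
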