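import Mathlib
import Pool.Agent.MP_f91556_lc.AP.Ghost

/-! Filling a table by three nested loops. -/

namespace Pool.Agent.MP_f91556_lc.AP

open Finset

/-- Change the clock only. -/
def Mem.at (M : Mem) (t : ℕ) : Mem := { M with time := t }

theorem loop_inv (ω : ℂ) (n : IE) (p : St) (e : ℕ → ℕ) (M : Mem) (Inv : ℕ → Mem → Prop)
    (h0 : Inv 0 (M.at (M.time + (1 + n.cost M e))))
    (hs : ∀ k < n.val M e, ∀ M', Inv k M' → Inv (k + 1) (p.run0 ω (push k e) M')) :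
    Inv (n.val M e) ((St.loop n p).run0 ω e M) := by
  have key : ∀ N, N ≤ n.val M e → Inv N
      (Nat.rec (M.at (M.time + (1 + n.cost M e))) (fun k M' => p.run0 ω (push k e) M') N) := by
    intro N
    induction N with
    | zero => intro _; exact h0
    | succ N ih => intro h; exact hs N (by omega) _ (ih (by omega))
  exact key _ le_rfl

/-- One loop that makes the cells `Cell 0, Cell 1, ...` correct, keeps `G`, and keeps every
property in the family `Oth`. -/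
theorem loop_fill (ω : ℂ) (n : IE) (p : St) (e : ℕ → ℕ) (M : Mem) (N c : ℕ) (w : ℕ → ℕ)
    (G : Mem → Prop) (Cell : ℕ → Mem → Prop) {ι : Type} (Oth : ι → Mem → Prop)
    (hG : ∀ M t, G M → G (M.at t)) (hO : ∀ x M t, Oth x M → Oth x (M.at t))
    (hn : n.val M e = N) (hc : n.cost M e ≤ c) (hM : G M)
    (hs : ∀ k < N, ∀ M', G M' → (∀ k' < k, Cell k' M') →
      G (p.run0 ω (push k e) M') ∧ Cell k (p.run0 ω (push k e) M') ∧
      (∀ k' < k, Cell k' (p.run0 ω (push k e) M')) ∧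
      (∀ x, Oth x M' → Oth x (p.run0 ω (push k e) M')) ∧
      (p.run0 ω (push k e) M').time ≤ M'.time + w k) :
    G ((St.loop n p).run0 ω e M) ∧ (∀ k < N, Cell k ((St.loop n p).run0 ω e M)) ∧
      (∀ x, Oth x M → Oth x ((St.loop n p).run0 ω e M)) ∧
      ((St.loop n p).run0 ω e M).time ≤ M.time + (1 + c + ∑ k ∈ range N, w k) := by
  have := loop_inv ω n p e M
    (fun k M' => G M' ∧ (∀ k' < k, Cell k' M') ∧ (∀ x, Oth x M → Oth x M') ∧
      M'.time ≤ M.time + (1 + c + ∑ k ∈ range k, w k))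
    ⟨hG _ _ hM, fun _ h => absurd h (Nat.not_lt_zero _), fun x h => hO _ _ _ h, by
      simp only [Mem.at, range_zero, sum_empty]; omega⟩
    (by
      intro k hk M' ⟨h1, h2, h3, h4⟩
      obtain ⟨g1, g2, g3, g4, g5⟩ := hs k (hn ▸ hk) M' h1 h2
      refine ⟨g1, fun k' hk' => ?_, fun x hx => g4 x (h3 x hx), ?_⟩
      · rcases Nat.lt_succ_iff_lt_or_eq.1 hk' with h | h
        · exact g3 k' h
        · exact h ▸ g2
      · rw [sum_range_succ]; omega)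
  rwa [hn] at this

/-- Three nested loops around the statement `s`. -/
def nest (n1 n2 n3 : IE) (s : St) : St := .loop n1 (.loop n2 (.loop n3 s))

theorem nest_fill (ω : ℂ) (n1 n2 n3 : IE) (s : St) (e : ℕ → ℕ) (M : Mem) (N1 N2 N3 c : ℕ)
    (w : ℕ → ℕ → ℕ → ℕ) (G : Mem → Prop) (Cell : ℕ → ℕ → ℕ → Mem → Prop)
    (hG : ∀ M t, G M → G (M.at t)) (hC : ∀ i j k M t, Cell i j k M → Cell i j k (M.at t))
    (h1 : ∀ M e, G M → n1.val M e = N1 ∧ n1.cost M e ≤ c)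
    (h2 : ∀ M e, G M → n2.val M e = N2 ∧ n2.cost M e ≤ c)
    (h3 : ∀ M e, G M → n3.val M e = N3 ∧ n3.cost M e ≤ c)
    (hM : G M)
    (hs : ∀ i < N1, ∀ j < N2, ∀ k < N3, ∀ M', G M' → (∀ k' < k, Cell i j k' M') →
      G (s.run0 ω (push k (push j (push i e))) M') ∧
      Cell i j k (s.run0 ω (push k (push j (push i e))) M') ∧
      (∀ i' j' k', ¬ (i' = i ∧ j' = j ∧ k' = k) → Cell i' j' k' M' →
        Cell i' j' k' (s.run0 ω (push k (push j (push i e))) M')) ∧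
      (s.run0 ω (push k (push j (push i e))) M').time ≤ M'.time + w i j k) :
    G ((nest n1 n2 n3 s).run0 ω e M) ∧
      (∀ i < N1, ∀ j < N2, ∀ k < N3, Cell i j k ((nest n1 n2 n3 s).run0 ω e M)) ∧
      ((nest n1 n2 n3 s).run0 ω e M).time ≤ M.time +
        (1 + c + ∑ i ∈ range N1, (1 + c + ∑ j ∈ range N2, (1 + c + ∑ k ∈ range N3, w i j k))) := by
  have inner : ∀ i < N1, ∀ j < N2, ∀ M', G M' →
      G ((St.loop n3 s).run0 ω (push j (push i e)) M') ∧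
      (∀ k < N3, Cell i j k ((St.loop n3 s).run0 ω (push j (push i e)) M')) ∧
      (∀ x : {x : ℕ × ℕ × ℕ // ¬ (x.1 = i ∧ x.2.1 = j)}, Cell x.1.1 x.1.2.1 x.1.2.2 M' →
        Cell x.1.1 x.1.2.1 x.1.2.2 ((St.loop n3 s).run0 ω (push j (push i e)) M')) ∧
      ((St.loop n3 s).run0 ω (push j (push i e)) M').time ≤
        M'.time + (1 + c + ∑ k ∈ range N3, w i j k) := by
    intro i hi j hj M' hM'
    refine loop_fill ω n3 s _ M' N3 c (w i j) G (Cell i j)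
      (fun x : {x : ℕ × ℕ × ℕ // ¬ (x.1 = i ∧ x.2.1 = j)} => Cell x.1.1 x.1.2.1 x.1.2.2)
      hG (fun x => hC _ _ _) (h3 _ _ hM').1 (h3 _ _ hM').2 hM' ?_
    intro k hk M'' g1 g2
    obtain ⟨a1, a2, a3, a4⟩ := hs i hi j hj k hk M'' g1 g2
    exact ⟨a1, a2, fun k' hk' => a3 _ _ _ (by omega) (g2 k' hk'),
      fun x hx => a3 _ _ _ (fun h => x.2 ⟨h.1, h.2.1⟩) hx, a4⟩
  have mid : ∀ i < N1, ∀ M', G M' →
      G ((St.loop n2 (.loop n3 s)).run0 ω (push i e) M') ∧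
      (∀ j < N2, ∀ k < N3, Cell i j k ((St.loop n2 (.loop n3 s)).run0 ω (push i e) M')) ∧
      (∀ x : {x : ℕ × ℕ × ℕ // ¬ x.1 = i}, Cell x.1.1 x.1.2.1 x.1.2.2 M' →
        Cell x.1.1 x.1.2.1 x.1.2.2 ((St.loop n2 (.loop n3 s)).run0 ω (push i e) M')) ∧
      ((St.loop n2 (.loop n3 s)).run0 ω (push i e) M').time ≤
        M'.time + (1 + c + ∑ j ∈ range N2, (1 + c + ∑ k ∈ range N3, w i j k)) := by
    intro i hi M' hM'
    refine loop_fill ω n2 _ _ M' N2 c _ G (fun j M => ∀ k < N3, Cell i j k M)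
      (fun x : {x : ℕ × ℕ × ℕ // ¬ x.1 = i} => Cell x.1.1 x.1.2.1 x.1.2.2)
      hG (fun x => hC _ _ _) (h2 _ _ hM').1 (h2 _ _ hM').2 hM' ?_
    intro j hj M'' g1 g2
    obtain ⟨a1, a2, a3, a4⟩ := inner i hi j hj M'' g1
    exact ⟨a1, a2, fun j' hj' k hk => a3 ⟨(i, j', k), by simp only; omega⟩ (g2 j' hj' k hk),
      fun x hx => a3 ⟨x.1, fun h => x.2 h.1⟩ hx, a4⟩
  have := loop_fill ω n1 (.loop n2 (.loop n3 s)) e M N1 c
    (fun i => 1 + c + ∑ j ∈ range N2, (1 + c + ∑ k ∈ range N3, w i j k)) G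
    (fun i M => ∀ j < N2, ∀ k < N3, Cell i j k M) (fun _ : Unit => fun _ => True)
    hG (fun _ _ _ _ => trivial) (h1 _ _ hM).1 (h1 _ _ hM).2 hM (by
      intro i hi M'' g1 g2
      obtain ⟨a1, a2, a3, a4⟩ := mid i hi M'' g1
      exact ⟨a1, a2, fun i' hi' j hj k hk =>
        a3 ⟨(i', j, k), by simp only; omega⟩ (g2 i' hi' j hj k hk), fun _ _ => trivial, a4⟩)
  exact ⟨this.1, this.2.1, this.2.2.2⟩

theorem nest_time_le (N1 N2 N3 c w0 : ℕ) (w : ℕ → ℕ → ℕ → ℕ)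
    (hw : ∀ i < N1, ∀ j < N2, ∀ k < N3, w i j k ≤ w0) :
    1 + c + ∑ i ∈ range N1, (1 + c + ∑ j ∈ range N2, (1 + c + ∑ k ∈ range N3, w i j k)) ≤
      (N1 + 1) * (N2 + 1) * (N3 + 1) * (w0 + (1 + c)) := by
  set u := w0 + (1 + c) with hu
  have a3 : ∀ i < N1, ∀ j < N2, 1 + c + ∑ k ∈ range N3, w i j k ≤ (N3 + 1) * u := by
    intro i hi j hj
    have : ∑ k ∈ range N3, w i j k ≤ N3 * u := by
      have := sum_le_card_nsmul (range N3) (w i j) u
        (fun k hk => (hw i hi j hj k (mem_range.1 hk)).trans (by omega))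
      simpa using this
    nlinarith
  have a2 : ∀ i < N1, 1 + c + ∑ j ∈ range N2, (1 + c + ∑ k ∈ range N3, w i j k) ≤
      (N2 + 1) * ((N3 + 1) * u) := by
    intro i hi
    have : ∑ j ∈ range N2, (1 + c + ∑ k ∈ range N3, w i j k) ≤ N2 * ((N3 + 1) * u) := by
      have := sum_le_card_nsmul (range N2) _ _ (fun j hj => a3 i hi j (mem_range.1 hj))
      simpa using this
    nlinarith [Nat.zero_le (N3 * u)]
  have : ∑ i ∈ range N1, (1 + c + ∑ j ∈ range N2, (1 + c + ∑ k ∈ range N3, w i j k)) ≤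
      N1 * ((N2 + 1) * ((N3 + 1) * u)) := by
    have := sum_le_card_nsmul (range N1) _ _ (fun i hi => a2 i (mem_range.1 hi))
    simpa using this
  have h1 : 1 + c ≤ (N2 + 1) * ((N3 + 1) * u) := by
    nlinarith [Nat.zero_le (N3 * u), Nat.zero_le (N2 * ((N3 + 1) * u))]
  calc _ ≤ (N2 + 1) * ((N3 + 1) * u) + N1 * ((N2 + 1) * ((N3 + 1) * u)) := by omega
    _ = _ := by ring

/-- Fill the integer array `a`. -/
def tabI (a : ℕ) (n1 n2 n3 x : IE) : St :=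
  nest n1 n2 n3 (.setI a (.var 2) (.var 1) (.var 0) x)

/-- Fill the complex array `a`. -/
def tabC (a : ℕ) (n1 n2 n3 : IE) (z : CE) : St :=
  nest n1 n2 n3 (.setC a (.var 2) (.var 1) (.var 0) z)

/-- The intended contents of all arrays, their sizes, and the bound on stored integers. -/
structure Plan where
  SI : ℕ → ℕ → ℕ → ℕ → ℕ
  dI : ℕ → ℕ × ℕ × ℕ
  SZ : ℕ → ℕ → ℕ → ℕ → ℂ
  dZ : ℕ → ℕ × ℕ × ℕ
  W : ℕ

/-- The integer arrays below `p` and the complex arrays below `p'` are correct. -/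
structure Plan.Good (P : Plan) (p p' : ℕ) (M : Mem) : Prop where
  int : ∀ a < p, ∀ i < (P.dI a).1, ∀ j < (P.dI a).2.1, ∀ k < (P.dI a).2.2,
    M.I a i j k = P.SI a i j k
  cpx : ∀ a < p', ∀ i < (P.dZ a).1, ∀ j < (P.dZ a).2.1, ∀ k < (P.dZ a).2.2,
    M.Z a i j k = P.SZ a i j k
  word : M.word ≤ P.W

theorem Plan.stepI (P : Plan) (ω : ℂ) (p p' : ℕ) (n1 n2 n3 x : IE) (e : ℕ → ℕ) (c w0 T : ℕ)
    (h1 : ∀ M e, P.Good p p' M → n1.val M e = (P.dI p).1 ∧ n1.cost M e ≤ c)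
    (h2 : ∀ M e, P.Good p p' M → n2.val M e = (P.dI p).2.1 ∧ n2.cost M e ≤ c)
    (h3 : ∀ M e, P.Good p p' M → n3.val M e = (P.dI p).2.2 ∧ n3.cost M e ≤ c)
    (hx : ∀ i < (P.dI p).1, ∀ j < (P.dI p).2.1, ∀ k < (P.dI p).2.2, ∀ M, P.Good p p' M →
      (∀ k' < k, M.I p i j k' = P.SI p i j k') →
      x.val M (push k (push j (push i e))) = P.SI p i j k ∧
      x.cost M (push k (push j (push i e))) ≤ w0 ∧ P.SI p i j k ≤ P.W)
    (hT : ((P.dI p).1 + 1) * ((P.dI p).2.1 + 1) * ((P.dI p).2.2 + 1) * (w0 + 4 + (1 + c)) ≤ T)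
    (M : Mem) (hM : P.Good p p' M) :
    P.Good (p + 1) p' ((tabI p n1 n2 n3 x).run0 ω e M) ∧
      ((tabI p n1 n2 n3 x).run0 ω e M).time ≤ M.time + T := by
  obtain ⟨g1, g2, g3⟩ := nest_fill ω n1 n2 n3 (.setI p (.var 2) (.var 1) (.var 0) x) e M
    _ _ _ c (fun _ _ _ => w0 + 4) (P.Good p p') (fun i j k M => M.I p i j k = P.SI p i j k)
    (fun M t h => ⟨h.int, h.cpx, h.word⟩) (fun _ _ _ _ _ h => h) h1 h2 h3 hM (by
      intro i hi j hj k hk M' hM' hk'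
      obtain ⟨a1, a2, a3⟩ := hx i hi j hj k hk M' hM' hk'
      refine ⟨⟨fun a ha i' hi' j' hj' k' hk' => ?_, hM'.cpx, ?_⟩, ?_, ?_, ?_⟩
      · simp only [St.run0, upd]
        rw [if_neg (by omega)]
        exact hM'.int a ha i' hi' j' hj' k' hk'
      · simp only [St.run0, a1]
        exact max_le hM'.word a3
      · simp [St.run0, upd, IE.val, push, a1]
      · intro i' j' k' hne h
        simp only [St.run0, upd, IE.val, push]
        rw [if_neg (fun h' => hne h'.2)]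
        exact h
      · simp only [St.run0, IE.cost]
        omega)
  refine ⟨⟨fun a ha => ?_, g1.cpx, g1.word⟩, g3.trans ?_⟩
  · rcases Nat.lt_succ_iff_lt_or_eq.1 ha with h | h
    · exact g1.int a h
    · subst h; exact g2
  · exact Nat.add_le_add_left
      ((nest_time_le _ _ _ c (w0 + 4) _ (fun _ _ _ _ _ _ => le_rfl)).trans hT) _

theorem Plan.stepC' (P : Plan) (ω : ℂ) (p p' : ℕ) (n1 n2 n3 : IE) (z : CE) (e : ℕ → ℕ) (c T : ℕ)
    (w : ℕ → ℕ → ℕ → ℕ)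
    (h1 : ∀ M e, P.Good p p' M → n1.val M e = (P.dZ p').1 ∧ n1.cost M e ≤ c)
    (h2 : ∀ M e, P.Good p p' M → n2.val M e = (P.dZ p').2.1 ∧ n2.cost M e ≤ c)
    (h3 : ∀ M e, P.Good p p' M → n3.val M e = (P.dZ p').2.2 ∧ n3.cost M e ≤ c)
    (hx : ∀ i < (P.dZ p').1, ∀ j < (P.dZ p').2.1, ∀ k < (P.dZ p').2.2, ∀ M, P.Good p p' M →
      z.val ω M (push k (push j (push i e))) = P.SZ p' i j k ∧
      z.cost M (push k (push j (push i e))) + 4 ≤ w i j k)
    (hT : 1 + c + ∑ i ∈ range (P.dZ p').1, (1 + c + ∑ j ∈ range (P.dZ p').2.1,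
      (1 + c + ∑ k ∈ range (P.dZ p').2.2, w i j k)) ≤ T)
    (M : Mem) (hM : P.Good p p' M) :
    P.Good p (p' + 1) ((tabC p' n1 n2 n3 z).run0 ω e M) ∧
      ((tabC p' n1 n2 n3 z).run0 ω e M).time ≤ M.time + T := by
  obtain ⟨g1, g2, g3⟩ := nest_fill ω n1 n2 n3 (.setC p' (.var 2) (.var 1) (.var 0) z) e M
    _ _ _ c w (P.Good p p') (fun i j k M => M.Z p' i j k = P.SZ p' i j k)
    (fun M t h => ⟨h.int, h.cpx, h.word⟩) (fun _ _ _ _ _ h => h) h1 h2 h3 hM (by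
      intro i hi j hj k hk M' hM' _
      obtain ⟨a1, a2⟩ := hx i hi j hj k hk M' hM'
      refine ⟨⟨hM'.int, fun a ha i' hi' j' hj' k' hk' => ?_, hM'.word⟩, ?_, ?_, ?_⟩
      · simp only [St.run0, upd]
        rw [if_neg (by omega)]
        exact hM'.cpx a ha i' hi' j' hj' k' hk'
      · simp [St.run0, upd, IE.val, push, a1]
      · intro i' j' k' hne h
        simp only [St.run0, upd, IE.val, push]
        rw [if_neg (fun h' => hne h'.2)]
        exact h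
      · simp only [St.run0, IE.cost]
        omega)
  refine ⟨⟨g1.int, fun a ha => ?_, g1.word⟩, g3.trans (Nat.add_le_add_left hT _)⟩
  rcases Nat.lt_succ_iff_lt_or_eq.1 ha with h | h
  · exact g1.cpx a h
  · subst h; exact g2

theorem Plan.stepC (P : Plan) (ω : ℂ) (p p' : ℕ) (n1 n2 n3 : IE) (z : CE) (e : ℕ → ℕ)
    (c w0 T : ℕ)
    (h1 : ∀ M e, P.Good p p' M → n1.val M e = (P.dZ p').1 ∧ n1.cost M e ≤ c)
    (h2 : ∀ M e, P.Good p p' M → n2.val M e = (P.dZ p').2.1 ∧ n2.cost M e ≤ c)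
    (h3 : ∀ M e, P.Good p p' M → n3.val M e = (P.dZ p').2.2 ∧ n3.cost M e ≤ c)
    (hx : ∀ i < (P.dZ p').1, ∀ j < (P.dZ p').2.1, ∀ k < (P.dZ p').2.2, ∀ M, P.Good p p' M →
      z.val ω M (push k (push j (push i e))) = P.SZ p' i j k ∧
      z.cost M (push k (push j (push i e))) ≤ w0)
    (hT : ((P.dZ p').1 + 1) * ((P.dZ p').2.1 + 1) * ((P.dZ p').2.2 + 1) * (w0 + 4 + (1 + c)) ≤ T)
    (M : Mem) (hM : P.Good p p' M) :
    P.Good p (p' + 1) ((tabC p' n1 n2 n3 z).run0 ω e M) ∧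
      ((tabC p' n1 n2 n3 z).run0 ω e M).time ≤ M.time + T :=
  P.stepC' ω p p' n1 n2 n3 z e c T (fun _ _ _ => w0 + 4) h1 h2 h3
    (fun i hi j hj k hk M hM => ⟨(hx i hi j hj k hk M hM).1,
      Nat.add_le_add_right (hx i hi j hj k hk M hM).2 4⟩)
    ((nest_time_le _ _ _ c (w0 + 4) _ (fun _ _ _ _ _ _ => le_rfl)).trans hT) M hM

end Pool.Agent.MP_f91556_lc.AP
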