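import Mathlib
import Pool.Agent.MP_f91556_lc.AP.Tab
import Pool.Agent.MP_f91556_lc.AP.Spec

/-! The list of arrays of the program and the lemmas that read them. -/

namespace Pool.Agent.MP_f91556_lc.AP

open Finset

namespace Dat

variable (A : Dat)

def SI : ℕ → ℕ → ℕ → ℕ → ℕ
  | 0 => fun _ _ _ => A.m
  | 1 => fun _ _ _ => A.d
  | 2 => fun i _ _ => A.R i
  | 3 => fun i _ _ => A.C i
  | 4 => fun _ _ k => min (2 ^ k) (2 * A.m)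
  | 5 => fun _ _ _ => A.b
  | 6 => fun _ _ _ => A.n
  | 7 => fun _ _ _ => A.B
  | 8 => fun _ _ _ => A.N
  | 9 => fun _ _ _ => A.D
  | 10 => fun _ _ _ => A.t * A.d
  | 11 => fun _ _ k => A.B ^ k
  | 12 => fun i j _ => A.be i j
  | 13 => A.s
  | 14 => fun i j _ => A.Sg i j
  | 15 => A.atp
  | 16 => fun i j k => pvF (A.atp i j) k
  | 17 => fun i j k => lstF (A.atp i j) A.m k
  | 18 => fun i j _ => A.cnt i j
  | 19 => fun i j _ => A.dg i j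
  | 20 => fun i j _ => A.NN i j
  | 21 => fun i _ k => A.gf i k
  | 22 => fun i _ k => pvF (A.gf i) k
  | 23 => fun i j _ => A.y i j
  | 24 => fun _ _ k => A.pf k
  | 25 => fun _ _ k => pvF A.pf k
  | 26 => fun _ _ k => lstF A.pf A.N k
  | 27 => fun _ _ _ => A.rk
  | 28 => fun _ _ k => A.rk ^ k
  | 29 => fun i j _ => A.tg i j
  | _ => fun _ _ _ => 0

def dI : ℕ → ℕ × ℕ × ℕ
  | 2 => (A.m, 1, 1)
  | 3 => (A.m, 1, 1)
  | 4 => (1, 1, A.m + 1)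
  | 11 => (1, 1, A.q + 1)
  | 12 => (A.q, A.m, 1)
  | 13 => (A.q, A.N, A.m)
  | 14 => (A.q, A.m, 1)
  | 15 => (A.q, A.N, A.m)
  | 16 => (A.q, A.N, A.m + 1)
  | 17 => (A.q, A.N, A.m)
  | 18 => (A.q, A.N, 1)
  | 19 => (A.q, A.m, 1)
  | 20 => (A.q, A.B, 1)
  | 21 => (A.q, 1, A.B)
  | 22 => (A.q, 1, A.B + 1)
  | 23 => (A.q, A.m, 1)
  | 24 => (1, 1, A.N)
  | 25 => (1, 1, A.N + 1)
  | 26 => (1, 1, A.N)
  | 28 => (1, 1, A.q + 1)
  | 29 => (A.rk ^ A.q, A.q, 1)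
  | _ => (1, 1, 1)

noncomputable def SZ : ℕ → ℕ → ℕ → ℕ → ℂ
  | 0 => fun i _ _ => A.v i
  | 1 => A.x
  | 2 => A.H
  | 3 => fun i j _ => chi A.n i j
  | 4 => A.G
  | 5 => fun i _ _ => A.U i
  | 6 => fun i _ _ => A.out i
  | _ => fun _ _ _ => 0

def dZ : ℕ → ℕ × ℕ × ℕ
  | 0 => (A.m, 1, 1)
  | 1 => (A.q, A.N, A.m)
  | 2 => (A.q, A.N, A.m)
  | 3 => (A.N, A.N, 1)
  | 4 => (A.q, A.N, A.m)
  | 5 => (A.rk ^ A.q, 1, 1)
  | 6 => (A.m, 1, 1)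
  | _ => (1, 1, 1)

noncomputable def plan (W : ℕ) : Plan := ⟨A.SI, A.dI, A.SZ, A.dZ, W⟩

/-- The time allowed for one table. -/
def T1 : ℕ := 10000 * (A.q + 1) ^ 2 * A.N ^ 3 * A.m

/-- What is used about the sizes. -/
structure Hyp (W : ℕ) : Prop where
  hm : 1 ≤ A.m
  hd : 0 < A.d
  hrk0 : 0 < A.rk
  hrk : A.rk ^ A.q ≤ A.N
  w1 : 2 * A.m ≤ W
  w2 : A.B ^ A.q ≤ W
  w3 : A.N * A.d ≤ W
  w4 : A.m * A.m ≤ W

theorem N_pos : 1 ≤ A.N := Nat.one_le_two_pow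
theorem n_le_N : A.n ≤ A.N := Nat.lt_two_pow_self.le
theorem D_le_N : A.D ≤ A.N := (Nat.div_le_self _ _).trans A.n_le_N
theorem t_le_N : A.t ≤ A.N := (Nat.div_le_self _ _).trans A.n_le_N
theorem pow16_le (hm : 1 ≤ A.m) : 16 ^ A.b ≤ A.m := Nat.pow_log_le_self 16 (by omega)
theorem B_le_m (hm : 1 ≤ A.m) : A.B ≤ A.m :=
  (Nat.pow_le_pow_left (by norm_num) _).trans (A.pow16_le hm)
theorem n_le_m (hm : 1 ≤ A.m) : A.n ≤ A.m := by
  have := A.B_le_m hm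
  have : A.b < A.B := Nat.lt_two_pow_self
  unfold n; omega

theorem bud (hm : 1 ≤ A.m) {a1 a2 a3 a4 : ℕ} (x1 x2 x3 x4 c i j k : ℕ) (h1 : a1 ≤ x1)
    (h2 : a2 ≤ x2) (h3 : a3 ≤ x3) (h4 : a4 ≤ x4)
    (he : x1 * x2 * x3 * x4 = c * (A.q + 1) ^ i * A.N ^ j * A.m ^ k) (hc : c ≤ 10000)
    (hi : i ≤ 2) (hj : j ≤ 3) (hk : k ≤ 1) : a1 * a2 * a3 * a4 ≤ A.T1 := by
  have hN := A.N_pos
  calc _ ≤ x1 * x2 * x3 * x4 := by gcongr
    _ = _ := he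
    _ ≤ 10000 * (A.q + 1) ^ 2 * A.N ^ 3 * A.m ^ 1 := by
        have e1 : (A.q + 1) ^ i ≤ (A.q + 1) ^ 2 := Nat.pow_le_pow_right (by omega) hi
        have e2 : A.N ^ j ≤ A.N ^ 3 := Nat.pow_le_pow_right hN hj
        have e3 : A.m ^ k ≤ A.m ^ 1 := Nat.pow_le_pow_right hm hk
        exact Nat.mul_le_mul (Nat.mul_le_mul (Nat.mul_le_mul hc e1) e2) e3
    _ = _ := by rw [pow_one]; rfl

/-- The program `P` leads from `p, p'` correct arrays to `r, r'` correct arrays in time `T`. -/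
def Step (W p p' r r' : ℕ) (P : St) (T : ℕ) : Prop :=
  ∀ M, (A.plan W).Good p p' M → (A.plan W).Good r r' (P.run0 A.om (fun _ => 0) M) ∧
    (P.run0 A.om (fun _ => 0) M).time ≤ M.time + T

theorem Step.seq {A : Dat} {W p p' r r' u u' : ℕ} {P P' : St} {T T' : ℕ}
    (h : A.Step W p p' r r' P T) (h' : A.Step W r r' u u' P' T') :
    A.Step W p p' u u' (.seq P P') (T + T') := by
  intro M hM
  obtain ⟨a1, a2⟩ := h M hM
  obtain ⟨b1, b2⟩ := h' _ a1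
  refine ⟨b1, b2.trans ?_⟩
  omega

/-- The expression `x` is a cheap loop bound with value `N`. -/
def Bd (W p p' : ℕ) (x : IE) (N : ℕ) : Prop :=
  ∀ M e, (A.plan W).Good p p' M → x.val M e = N ∧ x.cost M e ≤ 10

theorem stepI (W p : ℕ) {n1 n2 n3 x : IE} {N1 N2 N3 : ℕ} (f : ℕ → ℕ → ℕ → ℕ) (w0 : ℕ)
    (hdim : A.dI p = (N1, N2, N3)) (hf : A.SI p = f)
    (h1 : A.Bd W p 1 n1 N1) (h2 : A.Bd W p 1 n2 N2) (h3 : A.Bd W p 1 n3 N3)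
    (hx : ∀ i < N1, ∀ j < N2, ∀ k < N3, ∀ M, (A.plan W).Good p 1 M →
      (∀ k' < k, M.I p i j k' = f i j k') →
      x.val M (push k (push j (push i fun _ => 0))) = f i j k ∧
      x.cost M (push k (push j (push i fun _ => 0))) ≤ w0 ∧ f i j k ≤ W)
    (hT : (N1 + 1) * (N2 + 1) * (N3 + 1) * (w0 + 15) ≤ A.T1) :
    A.Step W p 1 (p + 1) 1 (tabI p n1 n2 n3 x) A.T1 := by
  have hdim' : (A.plan W).dI p = (N1, N2, N3) := hdim
  have hf' : (A.plan W).SI p = f := hf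
  intro M hM
  refine (A.plan W).stepI A.om p 1 n1 n2 n3 x _ 10 w0 A.T1 ?_ ?_ ?_ ?_ ?_ M hM
  all_goals rw [hdim']
  · exact h1
  · exact h2
  · exact h3
  · rw [hf']; exact hx
  · exact hT

theorem stepC (W p : ℕ) {n1 n2 n3 : IE} {z : CE} {N1 N2 N3 : ℕ} (f : ℕ → ℕ → ℕ → ℂ) (w0 : ℕ)
    (hdim : A.dZ p = (N1, N2, N3)) (hf : A.SZ p = f)
    (h1 : A.Bd W 30 p n1 N1) (h2 : A.Bd W 30 p n2 N2) (h3 : A.Bd W 30 p n3 N3)
    (hx : ∀ i < N1, ∀ j < N2, ∀ k < N3, ∀ M, (A.plan W).Good 30 p M →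
      z.val A.om M (push k (push j (push i fun _ => 0))) = f i j k ∧
      z.cost M (push k (push j (push i fun _ => 0))) ≤ w0)
    (hT : (N1 + 1) * (N2 + 1) * (N3 + 1) * (w0 + 15) ≤ A.T1) :
    A.Step W 30 p 30 (p + 1) (tabC p n1 n2 n3 z) A.T1 := by
  have hdim' : (A.plan W).dZ p = (N1, N2, N3) := hdim
  have hf' : (A.plan W).SZ p = f := hf
  intro M hM
  refine (A.plan W).stepC A.om 30 p n1 n2 n3 z _ 10 w0 A.T1 ?_ ?_ ?_ ?_ ?_ M hM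
  all_goals rw [hdim']
  · exact h1
  · exact h2
  · exact h3
  · rw [hf']; exact hx
  · exact hT

section Read

variable {A} {W p p' : ℕ} {M : Mem} (h : (A.plan W).Good p p' M)
include h

theorem r0 (hp : 0 < p) : M.I 0 0 0 0 = A.m := h.int 0 hp 0 one_pos 0 one_pos 0 one_pos
theorem r1 (hp : 1 < p) : M.I 1 0 0 0 = A.d := h.int 1 hp 0 one_pos 0 one_pos 0 one_pos
theorem r2 (hp : 2 < p) {i : ℕ} (hi : i < A.m) : M.I 2 i 0 0 = A.R i :=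
  h.int 2 hp i hi 0 one_pos 0 one_pos
theorem r3 (hp : 3 < p) {i : ℕ} (hi : i < A.m) : M.I 3 i 0 0 = A.C i :=
  h.int 3 hp i hi 0 one_pos 0 one_pos
theorem r4 (hp : 4 < p) {k : ℕ} (hk : k < A.m + 1) : M.I 4 0 0 k = min (2 ^ k) (2 * A.m) :=
  h.int 4 hp 0 one_pos 0 one_pos k hk
theorem r4' (hp : 4 < p) (hm : 1 ≤ A.m) {k : ℕ} (hk : k ≤ A.n) : M.I 4 0 0 k = 2 ^ k := by
  have h1 := A.n_le_m hm
  have h2 := A.B_le_m hm
  have h3 := A.N_eq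
  have h4 : 2 ^ k ≤ A.N := Nat.pow_le_pow_right (by norm_num) hk
  rw [r4 h hp (by omega)]; omega
theorem r5 (hp : 5 < p) : M.I 5 0 0 0 = A.b := h.int 5 hp 0 one_pos 0 one_pos 0 one_pos
theorem r6 (hp : 6 < p) : M.I 6 0 0 0 = A.n := h.int 6 hp 0 one_pos 0 one_pos 0 one_pos
theorem r7 (hp : 7 < p) : M.I 7 0 0 0 = A.B := h.int 7 hp 0 one_pos 0 one_pos 0 one_pos
theorem r8 (hp : 8 < p) : M.I 8 0 0 0 = A.N := h.int 8 hp 0 one_pos 0 one_pos 0 one_pos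
theorem r9 (hp : 9 < p) : M.I 9 0 0 0 = A.D := h.int 9 hp 0 one_pos 0 one_pos 0 one_pos
theorem r10 (hp : 10 < p) : M.I 10 0 0 0 = A.t * A.d := h.int 10 hp 0 one_pos 0 one_pos 0 one_pos
theorem r11 (hp : 11 < p) {k : ℕ} (hk : k < A.q + 1) : M.I 11 0 0 k = A.B ^ k :=
  h.int 11 hp 0 one_pos 0 one_pos k hk
theorem r12 (hp : 12 < p) {i j : ℕ} (hi : i < A.q) (hj : j < A.m) : M.I 12 i j 0 = A.be i j :=
  h.int 12 hp i hi j hj 0 one_pos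
theorem r13 (hp : 13 < p) {i j k : ℕ} (hi : i < A.q) (hj : j < A.N) (hk : k < A.m) :
    M.I 13 i j k = A.s i j k := h.int 13 hp i hi j hj k hk
theorem r14 (hp : 14 < p) {i j : ℕ} (hi : i < A.q) (hj : j < A.m) : M.I 14 i j 0 = A.Sg i j :=
  h.int 14 hp i hi j hj 0 one_pos
theorem r15 (hp : 15 < p) {i j k : ℕ} (hi : i < A.q) (hj : j < A.N) (hk : k < A.m) :
    M.I 15 i j k = A.atp i j k := h.int 15 hp i hi j hj k hk
theorem r16 (hp : 16 < p) {i j k : ℕ} (hi : i < A.q) (hj : j < A.N) (hk : k < A.m + 1) :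
    M.I 16 i j k = pvF (A.atp i j) k := h.int 16 hp i hi j hj k hk
theorem r17 (hp : 17 < p) {i j k : ℕ} (hi : i < A.q) (hj : j < A.N) (hk : k < A.m) :
    M.I 17 i j k = lstF (A.atp i j) A.m k := h.int 17 hp i hi j hj k hk
theorem r18 (hp : 18 < p) {i j : ℕ} (hi : i < A.q) (hj : j < A.N) : M.I 18 i j 0 = A.cnt i j :=
  h.int 18 hp i hi j hj 0 one_pos
theorem r19 (hp : 19 < p) {i j : ℕ} (hi : i < A.q) (hj : j < A.m) : M.I 19 i j 0 = A.dg i j :=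
  h.int 19 hp i hi j hj 0 one_pos
theorem r20 (hp : 20 < p) {i j : ℕ} (hi : i < A.q) (hj : j < A.B) : M.I 20 i j 0 = A.NN i j :=
  h.int 20 hp i hi j hj 0 one_pos
theorem r21 (hp : 21 < p) {i k : ℕ} (hi : i < A.q) (hk : k < A.B) : M.I 21 i 0 k = A.gf i k :=
  h.int 21 hp i hi 0 one_pos k hk
theorem r22 (hp : 22 < p) {i : ℕ} (hi : i < A.q) : M.I 22 i 0 A.B = pvF (A.gf i) A.B :=
  h.int 22 hp i hi 0 one_pos A.B (Nat.lt_succ_self _)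
theorem r23 (hp : 23 < p) {i j : ℕ} (hi : i < A.q) (hj : j < A.m) : M.I 23 i j 0 = A.y i j :=
  h.int 23 hp i hi j hj 0 one_pos
theorem r24 (hp : 24 < p) {k : ℕ} (hk : k < A.N) : M.I 24 0 0 k = A.pf k :=
  h.int 24 hp 0 one_pos 0 one_pos k hk
theorem r25 (hp : 25 < p) {k : ℕ} (hk : k < A.N + 1) : M.I 25 0 0 k = pvF A.pf k :=
  h.int 25 hp 0 one_pos 0 one_pos k hk
theorem r26 (hp : 26 < p) {k : ℕ} (hk : k < A.N) : M.I 26 0 0 k = lstF A.pf A.N k :=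
  h.int 26 hp 0 one_pos 0 one_pos k hk
theorem r27 (hp : 27 < p) : M.I 27 0 0 0 = A.rk := h.int 27 hp 0 one_pos 0 one_pos 0 one_pos
theorem r28 (hp : 28 < p) {k : ℕ} (hk : k < A.q + 1) : M.I 28 0 0 k = A.rk ^ k :=
  h.int 28 hp 0 one_pos 0 one_pos k hk
theorem r29 (hp : 29 < p) {i j : ℕ} (hi : i < A.rk ^ A.q) (hj : j < A.q) :
    M.I 29 i j 0 = A.tg i j := h.int 29 hp i hi j hj 0 one_pos
theorem c0 (hp : 0 < p') {i : ℕ} (hi : i < A.m) : M.Z 0 i 0 0 = A.v i :=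
  h.cpx 0 hp i hi 0 one_pos 0 one_pos
theorem c1 (hp : 1 < p') {i j k : ℕ} (hi : i < A.q) (hj : j < A.N) (hk : k < A.m) :
    M.Z 1 i j k = A.x i j k := h.cpx 1 hp i hi j hj k hk
theorem c2 (hp : 2 < p') {i j k : ℕ} (hi : i < A.q) (hj : j < A.N) (hk : k < A.m) :
    M.Z 2 i j k = A.H i j k := h.cpx 2 hp i hi j hj k hk
theorem c3 (hp : 3 < p') {i j : ℕ} (hi : i < A.N) (hj : j < A.N) :
    M.Z 3 i j 0 = chi A.n i j := h.cpx 3 hp i hi j hj 0 one_pos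
theorem c4 (hp : 4 < p') {i j k : ℕ} (hi : i < A.q) (hj : j < A.N) (hk : k < A.m) :
    M.Z 4 i j k = A.G i j k := h.cpx 4 hp i hi j hj k hk
theorem c5 (hp : 5 < p') {i : ℕ} (hi : i < A.rk ^ A.q) : M.Z 5 i 0 0 = A.U i :=
  h.cpx 5 hp i hi 0 one_pos 0 one_pos
theorem c6 (hp : 6 < p') {i : ℕ} (hi : i < A.m) : M.Z 6 i 0 0 = A.out i :=
  h.cpx 6 hp i hi 0 one_pos 0 one_pos

end Read

end Dat

/-- The constant `0`. -/
def o : IE := .lit 0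
/-- The scalar stored in array `a`. -/
def par (a : ℕ) : IE := .get a o o o
/-- The test `x ≤ y`. -/
def leE (x y : IE) : IE := .sub (.lit 1) (.sub x y)
/-- The last loop counter minus one. -/
def km : IE := .sub (.var 0) (.lit 1)
/-- A binary digit. -/
def bitE (y i : IE) : IE := .mod (.div y (.get 4 o o i)) (.lit 2)

namespace Dat

variable (A : Dat) (W : ℕ) {p p' : ℕ}

theorem bl (k : ℕ) : A.Bd W p p' (.lit k) k := fun _ _ _ => ⟨rfl, by simp [IE.cost]⟩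
theorem bm (hp : 0 < p) : A.Bd W p p' (par 0) A.m :=
  fun _ _ h => ⟨r0 h hp, by simp [par, o, IE.cost]⟩
theorem bm1 (hp : 0 < p) : A.Bd W p p' (.add (par 0) (.lit 1)) (A.m + 1) :=
  fun _ _ h => ⟨congrArg (· + 1) (r0 h hp), by simp [par, o, IE.cost]⟩
theorem bB (hp : 7 < p) : A.Bd W p p' (par 7) A.B :=
  fun _ _ h => ⟨r7 h hp, by simp [par, o, IE.cost]⟩
theorem bB1 (hp : 7 < p) : A.Bd W p p' (.add (par 7) (.lit 1)) (A.B + 1) :=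
  fun _ _ h => ⟨congrArg (· + 1) (r7 h hp), by simp [par, o, IE.cost]⟩
theorem bN (hp : 8 < p) : A.Bd W p p' (par 8) A.N :=
  fun _ _ h => ⟨r8 h hp, by simp [par, o, IE.cost]⟩
theorem bN1 (hp : 8 < p) : A.Bd W p p' (.add (par 8) (.lit 1)) (A.N + 1) :=
  fun _ _ h => ⟨congrArg (· + 1) (r8 h hp), by simp [par, o, IE.cost]⟩
theorem bR (hp : 28 < p) : A.Bd W p p' (.get 28 o o (.lit A.q)) (A.rk ^ A.q) :=
  fun _ _ h => ⟨r28 h hp (Nat.lt_succ_self _), by simp [o, IE.cost]⟩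

end Dat

end Pool.Agent.MP_f91556_lc.AP
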