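import Mathlib
import Pool.Agent.MP_f91556_lc.AP.Plan

/-! The integer arrays `4` to `15`. -/

namespace Pool.Agent.MP_f91556_lc.AP

open Finset

def one : IE := .lit 1
def pw (i : IE) : IE := .get 4 o o i
def dbl : IE := .mul (.lit 2) (pw km)
def p4 : IE := pw (.add (.var 0) one)
def powE (a p : ℕ) : IE :=
  .add (leE (.var 0) o) (.mul (leE one (.var 0)) (.mul (par a) (.get p o o km)))

def P4 : St := tabI 4 one one (.add (par 0) (.lit 1))
  (.add (leE (.var 0) o) (.mul (leE one (.var 0)) (.sub dbl (.sub dbl (.mul (.lit 2) (par 0))))))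
def P5 : St := tabI 5 one one one (.sum (par 0) (leE (.mul (.mul p4 p4) (.mul p4 p4)) (par 0)))
def P6 : St := tabI 6 one one one (.add (par 5) one)
def P7 : St := tabI 7 one one one (pw (par 5))
def P8 : St := tabI 8 one one one (pw (par 6))
def P9 (Q1 : ℕ) : St := tabI 9 one one one (.div (par 6) (.lit Q1))
def P10 (Q2 : ℕ) : St := tabI 10 one one one (.mul (.div (par 6) (.lit Q2)) (par 1))
def P11 (q : ℕ) : St := tabI 11 one one (.lit (q + 1)) (powE 7 11)
def P12 (q : ℕ) : St := tabI 12 (.lit q) (par 0) one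
  (.mod (.mul (.get 11 o o (.var 2)) (.get 3 (.var 1) o o)) (par 1))
def P13 (q : ℕ) : St := tabI 13 (.lit q) (par 8) (par 0)
  (.sum (par 6) (.mul (bitE (.var 2) (.var 0))
    (.mod (.mul (pw (.var 0)) (.get 12 (.var 3) (.var 1) o)) (par 1))))
def P14 (q : ℕ) : St := tabI 14 (.lit q) (par 0) one
  (.sum (par 6) (.mod (.mul (pw (.var 0)) (.get 12 (.var 3) (.var 2) o)) (par 1)))
def s2 : IE := .mul (.lit 2) (.get 13 (.var 2) (.var 1) (.var 0))
def sg : IE := .get 14 (.var 2) (.var 0) o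
def P15 (q : ℕ) : St := tabI 15 (.lit q) (par 8) (par 0)
  (.sub one (.mul (leE s2 (.add sg (par 10))) (leE sg (.add s2 (par 10)))))

theorem log_count (m : ℕ) (hm : 1 ≤ m) :
    ∑ l ∈ range m, (1 - (min (2 ^ (l + 1)) (2 * m) * min (2 ^ (l + 1)) (2 * m) *
      (min (2 ^ (l + 1)) (2 * m) * min (2 ^ (l + 1)) (2 * m)) - m)) = Nat.log 16 m := by
  have h1 : ∀ l, 1 - (min (2 ^ (l + 1)) (2 * m) * min (2 ^ (l + 1)) (2 * m) *
      (min (2 ^ (l + 1)) (2 * m) * min (2 ^ (l + 1)) (2 * m)) - m) =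
      if l < Nat.log 16 m then 1 else 0 := by
    intro l
    have e : 2 ^ (l + 1) * 2 ^ (l + 1) * (2 ^ (l + 1) * 2 ^ (l + 1)) = 16 ^ (l + 1) := by
      rw [← mul_pow, ← mul_pow]; norm_num
    have hi : l + 1 ≤ Nat.log 16 m ↔ 16 ^ (l + 1) ≤ m :=
      Nat.le_log_iff_pow_le (by norm_num) (by omega)
    rcases le_total (2 ^ (l + 1)) (2 * m) with h | h
    · rw [min_eq_left h, e]
      split_ifs with h'
      · have := hi.1 h'; omega
      · have := mt hi.2 h'; omega
    · rw [min_eq_right h]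
      have h2 : m < 2 * m * (2 * m) * (2 * m * (2 * m)) := by
        have : 1 ≤ 2 * m * (2 * m * (2 * m)) := Nat.pos_of_ne_zero (by positivity)
        nlinarith
      have h3 : 2 * m * (2 * m) * (2 * m * (2 * m)) ≤ 16 ^ (l + 1) := by rw [← e]; gcongr
      rw [if_neg (fun h' => by have := hi.1 h'; omega)]
      omega
  simp only [h1]
  have h2 : Nat.log 16 m ≤ m := Nat.log_le_self _ _
  rw [← card_filter, ← card_range (Nat.log 16 m)]
  congr 1
  ext l
  simp only [mem_filter, mem_range, card_range]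
  omega

theorem powE_val (M : Mem) (e : ℕ → ℕ) (a p k x : ℕ) (ha : M.I a 0 0 0 = x)
    (hp : ∀ k' < k, M.I p 0 0 k' = x ^ k') :
    (powE a p).val M (push k e) = x ^ k ∧ (powE a p).cost M (push k e) ≤ 30 := by
  refine ⟨?_, by simp [powE, leE, o, one, par, km, IE.cost]⟩
  rcases k with _ | k
  · simp [powE, leE, o, one, par, km, IE.val, push]
  · simp [powE, leE, o, one, par, km, IE.val, push, ha, hp k (by omega), pow_succ']

namespace Dat

variable {A : Dat} {W : ℕ}

theorem budS (hm : 1 ≤ A.m) (w : ℕ) (hw : w ≤ 1000) : (1 + 1) * (1 + 1) * (1 + 1) * w ≤ A.T1 :=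
  A.bud hm 2 2 2 1000 8000 0 0 0 le_rfl le_rfl le_rfl hw (by ring) (by omega) (by omega) (by omega)
    (by omega)

theorem s4 (H : A.Hyp W) : A.Step W 4 1 5 1 P4 A.T1 := by
  have hm := H.hm
  refine A.stepI W 4 (fun _ _ k => min (2 ^ k) (2 * A.m)) 50 rfl rfl (A.bl W 1) (A.bl W 1)
    (A.bm1 W (by omega)) ?_
    (A.bud hm 2 2 (3 * A.m) 65 780 0 0 1 le_rfl le_rfl (by omega) le_rfl (by ring) (by omega)
      (by omega) (by omega) (by omega))
  intro i hi j hj k hk M h hp
  obtain rfl : i = 0 := by omega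
  obtain rfl : j = 0 := by omega
  refine ⟨?_, by simp [leE, o, one, par, km, dbl, pw, IE.cost], (min_le_right _ _).trans H.w1⟩
  rcases k with _ | k
  · simp [leE, o, one, par, km, dbl, pw, IE.val, push]; omega
  · simp only [leE, o, one, par, km, dbl, pw, IE.val, push, r0 h (by omega), Nat.add_sub_cancel,
      hp k (by omega), pow_succ]
    rw [show 1 - (1 - (k + 1)) = 1 by omega, one_mul]
    omega

theorem s5 (H : A.Hyp W) : A.Step W 5 1 6 1 P5 A.T1 := by
  have hm := H.hm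
  refine A.stepI W 5 (fun _ _ _ => A.b) (50 * A.m) rfl rfl (A.bl W 1) (A.bl W 1) (A.bl W 1) ?_
    (A.bud hm 2 2 2 (65 * A.m) 520 0 0 1 le_rfl le_rfl le_rfl (by omega) (by ring) (by omega)
      (by omega) (by omega) (by omega))
  intro i hi j hj k hk M h _
  refine ⟨?_, ?_, ?_⟩
  · simp only [leE, o, one, par, p4, pw, IE.val, push, r0 h (by omega)]
    refine Eq.trans (sum_congr rfl fun l hl => ?_) (log_count A.m hm)
    rw [r4 h (by omega) (by have := mem_range.1 hl; omega)]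
  · simp [leE, o, one, par, p4, pw, IE.cost, IE.val, r0 h]
    omega
  · have := A.n_le_m hm
    have := H.w1
    unfold n at *; omega

theorem s6 (H : A.Hyp W) : A.Step W 6 1 7 1 P6 A.T1 := by
  refine A.stepI W 6 (fun _ _ _ => A.n) 50 rfl rfl (A.bl W 1) (A.bl W 1) (A.bl W 1) ?_
    (budS H.hm _ (by omega))
  intro i hi j hj k hk M h _
  have := A.n_le_m H.hm
  have := H.w1
  exact ⟨by simp [o, one, par, IE.val, r5 h, n], by simp [o, one, par, IE.cost], by omega⟩

theorem s7 (H : A.Hyp W) : A.Step W 7 1 8 1 P7 A.T1 := by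
  refine A.stepI W 7 (fun _ _ _ => A.B) 50 rfl rfl (A.bl W 1) (A.bl W 1) (A.bl W 1) ?_
    (budS H.hm _ (by omega))
  intro i hi j hj k hk M h _
  have := A.B_le_m H.hm
  have := H.w1
  refine ⟨?_, by simp [o, pw, par, IE.cost], by omega⟩
  simp only [o, pw, par, IE.val, r5 h (by omega)]
  exact r4' h (by omega) H.hm (Nat.le_succ _)

theorem N_le (H : A.Hyp W) : A.N ≤ W := by
  have := A.B_le_m H.hm
  have := H.w1
  have := A.N_eq
  omega

theorem s8 (H : A.Hyp W) : A.Step W 8 1 9 1 P8 A.T1 := by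
  refine A.stepI W 8 (fun _ _ _ => A.N) 50 rfl rfl (A.bl W 1) (A.bl W 1) (A.bl W 1) ?_
    (budS H.hm _ (by omega))
  intro i hi j hj k hk M h _
  refine ⟨?_, by simp [o, pw, par, IE.cost], N_le H⟩
  simp only [o, pw, par, IE.val, r6 h (by omega)]
  exact r4' h (by omega) H.hm le_rfl

theorem s9 (H : A.Hyp W) : A.Step W 9 1 10 1 (P9 A.Q1) A.T1 := by
  refine A.stepI W 9 (fun _ _ _ => A.D) 50 rfl rfl (A.bl W 1) (A.bl W 1) (A.bl W 1) ?_
    (budS H.hm _ (by omega))
  intro i hi j hj k hk M h _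
  exact ⟨by simp [o, par, IE.val, r6 h, D], by simp [o, par, IE.cost], A.D_le_N.trans (N_le H)⟩

theorem s10 (H : A.Hyp W) : A.Step W 10 1 11 1 (P10 A.Q2) A.T1 := by
  refine A.stepI W 10 (fun _ _ _ => A.t * A.d) 50 rfl rfl (A.bl W 1) (A.bl W 1) (A.bl W 1) ?_
    (budS H.hm _ (by omega))
  intro i hi j hj k hk M h _
  exact ⟨by simp [o, par, IE.val, r6 h, r1 h, t], by simp [o, par, IE.cost],
    (Nat.mul_le_mul_right _ A.t_le_N).trans H.w3⟩

theorem s11 (H : A.Hyp W) : A.Step W 11 1 12 1 (P11 A.q) A.T1 := by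
  refine A.stepI W 11 (fun _ _ k => A.B ^ k) 30 rfl rfl (A.bl W 1) (A.bl W 1) (A.bl W _) ?_
    (A.bud H.hm 2 2 (2 * (A.q + 1)) 45 360 1 0 0 le_rfl le_rfl (by omega) le_rfl (by ring)
      (by omega) (by omega) (by omega) (by omega))
  intro i hi j hj k hk M h hp
  obtain rfl : i = 0 := by omega
  obtain rfl : j = 0 := by omega
  have := powE_val M (push 0 (push 0 fun _ => 0)) 7 11 k A.B (r7 h (by omega)) hp
  exact ⟨this.1, this.2, (Nat.pow_le_pow_right A.B_pos (by omega)).trans H.w2⟩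

theorem d_le (H : A.Hyp W) : A.d ≤ W := (Nat.le_mul_of_pos_left _ A.N_pos).trans H.w3

theorem s12 (H : A.Hyp W) : A.Step W 12 1 13 1 (P12 A.q) A.T1 := by
  have hm := H.hm
  refine A.stepI W 12 (fun i j _ => A.be i j) 50 rfl rfl (A.bl W _) (A.bm W (by omega))
    (A.bl W 1) ?_
    (A.bud hm (A.q + 1) (2 * A.m) 2 65 260 1 0 1 le_rfl (by omega) le_rfl le_rfl (by ring)
      (by omega) (by omega) (by omega) (by omega))
  intro i hi j hj k hk M h _
  refine ⟨?_, by simp [o, par, IE.cost], (Nat.mod_lt _ H.hd).le.trans (d_le H)⟩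
  simp only [o, par, IE.val, push, r1 h (by omega), r11 h (by omega) (Nat.lt_succ_of_lt hi),
    r3 h (by omega) hj, be]

theorem Sg_le (H : A.Hyp W) (j c : ℕ) : A.Sg j c ≤ W := by
  have := sum_le_card_nsmul (range A.n) (A.rh j c) A.d fun i _ => (Nat.mod_lt _ H.hd).le
  rw [card_range, smul_eq_mul] at this
  exact this.trans ((Nat.mul_le_mul_right _ A.n_le_N).trans H.w3)

theorem s_le_Sg (j y c : ℕ) : A.s j y c ≤ A.Sg j c :=
  sum_le_sum fun i _ => by rcases bit_cases y i with h | h <;> simp [h]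

theorem s13 (H : A.Hyp W) : A.Step W 13 1 14 1 (P13 A.q) A.T1 := by
  have hm := H.hm
  have hN := A.N_pos
  have hn := A.n_le_N
  refine A.stepI W 13 A.s (50 * A.N) rfl rfl (A.bl W _) (A.bN W (by omega))
    (A.bm W (by omega)) ?_
    (A.bud hm (A.q + 1) (2 * A.N) (2 * A.m) (65 * A.N) 260 1 2 1 le_rfl (by omega) (by omega)
      (by omega) (by ring) (by omega) (by omega) (by omega) (by omega))
  intro i hi j hj k hk M h _
  refine ⟨?_, ?_, (s_le_Sg _ _ _).trans (Sg_le H _ _)⟩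
  · simp only [o, par, pw, bitE, IE.val, push, r1 h (by omega), r6 h (by omega),
      r12 h (by omega) hi hk]
    refine sum_congr rfl fun l hl => ?_
    rw [r4' h (by omega) hm (mem_range.1 hl).le]; rfl
  · simp [o, par, pw, bitE, IE.cost, IE.val, r6 h]
    omega

theorem s14 (H : A.Hyp W) : A.Step W 14 1 15 1 (P14 A.q) A.T1 := by
  have hm := H.hm
  have hN := A.N_pos
  have hn := A.n_le_N
  refine A.stepI W 14 (fun i j _ => A.Sg i j) (50 * A.N) rfl rfl (A.bl W _) (A.bm W (by omega))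
    (A.bl W 1) ?_
    (A.bud hm (A.q + 1) (2 * A.m) 2 (65 * A.N) 260 1 1 1 le_rfl (by omega) le_rfl
      (by omega) (by ring) (by omega) (by omega) (by omega) (by omega))
  intro i hi j hj k hk M h _
  refine ⟨?_, ?_, Sg_le H _ _⟩
  · simp only [o, par, pw, IE.val, push, r1 h (by omega), r6 h (by omega),
      r12 h (by omega) hi hj]
    refine sum_congr rfl fun l hl => ?_
    rw [r4' h (by omega) hm (mem_range.1 hl).le]; rfl
  · simp [o, par, pw, IE.cost, IE.val, r6 h]
    omega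

theorem s15 (H : A.Hyp W) : A.Step W 15 1 16 1 (P15 A.q) A.T1 := by
  have hm := H.hm
  have hN := A.N_pos
  have hw := H.w1
  refine A.stepI W 15 A.atp 60 rfl rfl (A.bl W _) (A.bN W (by omega))
    (A.bm W (by omega)) ?_
    (A.bud hm (A.q + 1) (2 * A.N) (2 * A.m) 75 300 1 1 1 le_rfl (by omega) (by omega)
      (by omega) (by ring) (by omega) (by omega) (by omega) (by omega))
  intro i hi j hj k hk M h _
  refine ⟨?_, by simp [o, one, par, leE, s2, sg, IE.cost], (A.atp_le _ _ _).trans (by omega)⟩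
  simp only [o, one, par, leE, s2, sg, IE.val, push, r10 h (by omega), r13 h (by omega) hi hj hk,
    r14 h (by omega) hi hk]
  rfl

end Dat

end Pool.Agent.MP_f91556_lc.AP
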