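import Mathlib
import Pool.Agent.MP_f91556_lc.AP.ProgA

/-! The integer arrays `16` to `29`. -/

namespace Pool.Agent.MP_f91556_lc.AP

open Finset

def prev (a : ℕ) : IE := .get a (.var 2) (.var 1) km
def pvE (fa p : ℕ) : IE :=
  .mul (leE one (.var 0)) (.add (.mul (prev fa) (.var 0)) (.mul (.sub one (prev fa)) (prev p)))
def lstE (pa p n : ℕ) : IE := .get pa (.var 2) (.var 1)
  (.add (.mul (leE (.var 0) o) (par n)) (.mul (leE one (.var 0)) (.sub (prev p) one)))

def P16 (q : ℕ) : St := tabI 16 (.lit q) (par 8) (.add (par 0) (.lit 1)) (pvE 15 16)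
def P17 (q : ℕ) : St := tabI 17 (.lit q) (par 8) (par 0) (lstE 16 17 0)
def P18 (q : ℕ) : St := tabI 18 (.lit q) (par 8) one
  (.sum (par 0) (.get 15 (.var 3) (.var 2) (.var 0)))
def P19 (q : ℕ) : St := tabI 19 (.lit q) (par 0) one
  (.mod (.div (.get 2 (.var 1) o o) (.get 11 o o (.var 2))) (par 7))
def P20 (q : ℕ) : St := tabI 20 (.lit q) (par 7) one
  (.sum (par 0) (.get 18 (.var 3) (.add (.get 19 (.var 3) (.var 0) o) (.var 2)) o))
def P21 (q : ℕ) : St := tabI 21 (.lit q) one (par 7)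
  (leE (.mul (par 7) (.get 20 (.var 2) (.var 0) o)) (.sum (par 7) (.get 20 (.var 3) (.var 0) o)))
def P22 (q : ℕ) : St := tabI 22 (.lit q) one (.add (par 7) (.lit 1)) (pvE 21 22)
def shE : IE := .sub (.get 22 (.var 2) o (par 7)) one
def P23 (q : ℕ) : St := tabI 23 (.lit q) (par 0) one (.add (.get 19 (.var 2) (.var 1) o) shE)
def P24 : St := tabI 24 one one (par 8)
  (leE (.add (.sum (par 6) (bitE (.var 1) (.var 0))) one) (par 9))
def P25 : St := tabI 25 one one (.add (par 8) (.lit 1)) (pvE 24 25)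
def P26 : St := tabI 26 one one (par 8) (lstE 25 26 8)
def P27 : St := tabI 27 one one one (.sum (par 8) (.get 24 o o (.var 0)))
def P28 (q : ℕ) : St := tabI 28 one one (.lit (q + 1)) (powE 27 28)
def P29 (q : ℕ) : St := tabI 29 (.get 28 o o (.lit q)) (.lit q) one
  (.sub (.get 26 o o (.mod (.div (.var 2) (.get 28 o o (.var 1))) (par 27))) one)

theorem pvE_val (M : Mem) (e : ℕ → ℕ) (fa p i j k : ℕ) (F : ℕ → ℕ)
    (hF : ∀ k' < k, M.I fa i j k' = F k') (hp : ∀ k' < k, M.I p i j k' = pvF F k') :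
    (pvE fa p).val M (push k (push j (push i e))) = pvF F k ∧
      (pvE fa p).cost M (push k (push j (push i e))) ≤ 50 := by
  refine ⟨?_, by simp [pvE, prev, leE, one, km, IE.cost]⟩
  rcases k with _ | k
  · simp [pvE, prev, leE, one, km, IE.val, push, pvF]
  · simp [pvE, prev, leE, one, km, IE.val, push, pvF, hF k (by omega), hp k (by omega)]

theorem lstE_val (M : Mem) (e : ℕ → ℕ) (pa p a i j k n : ℕ) (F : ℕ → ℕ) (hF : ∀ k, F k ≤ 1)
    (hn : M.I a 0 0 0 = n) (hpa : ∀ x < n + 1, M.I pa i j x = pvF F x)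
    (hp : ∀ k' < k, M.I p i j k' = lstF F n k') :
    (lstE pa p a).val M (push k (push j (push i e))) = lstF F n k ∧
      (lstE pa p a).cost M (push k (push j (push i e))) ≤ 50 := by
  refine ⟨?_, by simp [lstE, prev, leE, o, one, par, km, IE.cost]⟩
  rcases k with _ | k
  · simp [lstE, prev, leE, o, one, par, km, IE.val, push, lstF, hn, hpa n (by omega)]
  · have := lstF_le F hF n k
    simp [lstE, prev, leE, o, one, par, km, IE.val, push, lstF, hp k (by omega),
      hpa (lstF F n k - 1) (by omega)]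

namespace Dat

variable {A : Dat} {W : ℕ}

theorem s16 (H : A.Hyp W) : A.Step W 16 1 17 1 (P16 A.q) A.T1 := by
  have hm := H.hm
  have hN := A.N_pos
  have hw := H.w1
  refine A.stepI W 16 (fun i j k => pvF (A.atp i j) k) 50 rfl rfl (A.bl W _) (A.bN W (by omega))
    (A.bm1 W (by omega)) ?_
    (A.bud hm (A.q + 1) (2 * A.N) (3 * A.m) 65 390 1 1 1 le_rfl (by omega) (by omega)
      (by omega) (by ring) (by omega) (by omega) (by omega) (by omega))
  intro i hi j hj k hk M h hp
  have := pvE_val M (fun _ => 0) 15 16 i j k (A.atp i j)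
    (fun k' hk' => r15 h (by omega) hi hj (by omega)) hp
  exact ⟨this.1, this.2, (pvF_le _ (A.atp_le i j) k).trans (by omega)⟩

theorem s17 (H : A.Hyp W) : A.Step W 17 1 18 1 (P17 A.q) A.T1 := by
  have hm := H.hm
  have hN := A.N_pos
  have hw := H.w1
  refine A.stepI W 17 (fun i j k => lstF (A.atp i j) A.m k) 50 rfl rfl (A.bl W _)
    (A.bN W (by omega)) (A.bm W (by omega)) ?_
    (A.bud hm (A.q + 1) (2 * A.N) (2 * A.m) 65 260 1 1 1 le_rfl (by omega) (by omega)
      (by omega) (by ring) (by omega) (by omega) (by omega) (by omega))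
  intro i hi j hj k hk M h hp
  have := lstE_val M (fun _ => 0) 16 17 0 i j k A.m (A.atp i j) (A.atp_le i j) (r0 h (by omega))
    (fun x hx => r16 h (by omega) hi hj hx) hp
  exact ⟨this.1, this.2, (lstF_le _ (A.atp_le i j) _ k).trans (by omega)⟩

theorem s18 (H : A.Hyp W) : A.Step W 18 1 19 1 (P18 A.q) A.T1 := by
  have hm := H.hm
  have hN := A.N_pos
  have hw := H.w1
  refine A.stepI W 18 (fun i j _ => A.cnt i j) (50 * A.m) rfl rfl (A.bl W _)
    (A.bN W (by omega)) (A.bl W 1) ?_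
    (A.bud hm (A.q + 1) (2 * A.N) 2 (65 * A.m) 260 1 1 1 le_rfl (by omega) (by omega)
      (by omega) (by ring) (by omega) (by omega) (by omega) (by omega))
  intro i hi j hj k hk M h _
  refine ⟨?_, ?_, (A.cnt_le_m i j).trans (by omega)⟩
  · simp only [o, par, IE.val, push, r0 h (by omega)]
    exact sum_congr rfl fun l hl => r15 h (by omega) hi hj (mem_range.1 hl)
  · simp [o, par, IE.cost, IE.val, r0 h]
    omega

theorem s19 (H : A.Hyp W) : A.Step W 19 1 20 1 (P19 A.q) A.T1 := by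
  have hm := H.hm
  have hN := N_le H
  have hB := A.N_eq
  refine A.stepI W 19 (fun i j _ => A.dg i j) 50 rfl rfl (A.bl W _) (A.bm W (by omega))
    (A.bl W 1) ?_
    (A.bud hm (A.q + 1) (2 * A.m) 2 65 260 1 0 1 le_rfl (by omega) le_rfl le_rfl (by ring)
      (by omega) (by omega) (by omega) (by omega))
  intro i hi j hj k hk M h _
  refine ⟨?_, by simp [o, par, IE.cost], (A.dg_lt i j).le.trans (by omega)⟩
  simp only [o, par, IE.val, push, r7 h (by omega), r11 h (by omega) (Nat.lt_succ_of_lt hi),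
    r2 h (by omega) hj, dg]

theorem s20 (H : A.Hyp W) : A.Step W 20 1 21 1 (P20 A.q) A.T1 := by
  have hm := H.hm
  have hB := A.N_eq
  have hB0 := A.B_pos
  refine A.stepI W 20 (fun i j _ => A.NN i j) (50 * A.m) rfl rfl (A.bl W _)
    (A.bB W (by omega)) (A.bl W 1) ?_
    (A.bud hm (A.q + 1) A.N 2 (65 * A.m) 130 1 1 1 le_rfl (by omega) (by omega)
      (by omega) (by ring) (by omega) (by omega) (by omega) (by omega))
  intro i hi j hj k hk M h _
  refine ⟨?_, ?_, ?_⟩
  · simp only [o, par, IE.val, push, r0 h (by omega)]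
    refine sum_congr rfl fun l hl => ?_
    have := A.dg_lt i l
    rw [r19 h (by omega) hi (mem_range.1 hl), r18 h (by omega) hi (by omega)]
  · simp [o, par, IE.cost, IE.val, r0 h]
    omega
  · have := sum_le_card_nsmul (range A.m) (fun r => A.cnt i (A.dg i r + j)) A.m
      fun r _ => A.cnt_le_m _ _
    rw [card_range, smul_eq_mul] at this
    exact this.trans H.w4

theorem s21 (H : A.Hyp W) : A.Step W 21 1 22 1 (P21 A.q) A.T1 := by
  have hm := H.hm
  have hw := H.w1
  have hB := A.N_eq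
  have hB0 := A.B_pos
  refine A.stepI W 21 (fun i _ k => A.gf i k) (50 * A.N) rfl rfl (A.bl W _) (A.bl W 1)
    (A.bB W (by omega)) ?_
    (A.bud hm (A.q + 1) 2 A.N (65 * A.N) 130 1 2 0 le_rfl (by omega) (by omega)
      (by omega) (by ring) (by omega) (by omega) (by omega) (by omega))
  intro i hi j hj k hk M h _
  refine ⟨?_, ?_, (A.gf_le i k).trans (by omega)⟩
  · simp only [o, par, leE, IE.val, push, r7 h (by omega), r20 h (by omega) hi hk]
    rw [sum_congr rfl fun l hl => r20 h (by omega) hi (mem_range.1 hl)]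
    rfl
  · simp [o, par, leE, IE.cost, IE.val, r7 h]
    omega

theorem s22 (H : A.Hyp W) : A.Step W 22 1 23 1 (P22 A.q) A.T1 := by
  have hm := H.hm
  have hN := N_le H
  have hB := A.N_eq
  have hB0 := A.B_pos
  refine A.stepI W 22 (fun i _ k => pvF (A.gf i) k) 50 rfl rfl (A.bl W _) (A.bl W 1)
    (A.bB1 W (by omega)) ?_
    (A.bud hm (A.q + 1) 2 (2 * A.N) 65 260 1 1 0 le_rfl (by omega) (by omega)
      (by omega) (by ring) (by omega) (by omega) (by omega) (by omega))
  intro i hi j hj k hk M h hp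
  obtain rfl : j = 0 := by omega
  have := pvE_val M (fun _ => 0) 21 22 i 0 k (A.gf i)
    (fun k' hk' => r21 h (by omega) hi (by omega)) hp
  exact ⟨this.1, this.2, (pvF_le _ (A.gf_le i) k).trans (by omega)⟩

theorem s23 (H : A.Hyp W) : A.Step W 23 1 24 1 (P23 A.q) A.T1 := by
  have hm := H.hm
  refine A.stepI W 23 (fun i j _ => A.y i j) 50 rfl rfl (A.bl W _) (A.bm W (by omega))
    (A.bl W 1) ?_
    (A.bud hm (A.q + 1) (2 * A.m) 2 65 260 1 0 1 le_rfl (by omega) le_rfl le_rfl (by ring)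
      (by omega) (by omega) (by omega) (by omega))
  intro i hi j hj k hk M h _
  refine ⟨?_, by simp [o, one, par, shE, IE.cost], (A.y_lt i j).le.trans (N_le H)⟩
  simp only [o, one, par, shE, IE.val, push, r7 h (by omega), r22 h (by omega) hi,
    r19 h (by omega) hi hj]
  rfl

theorem s24 (H : A.Hyp W) : A.Step W 24 1 25 1 P24 A.T1 := by
  have hm := H.hm
  have hw := H.w1
  have hN := A.N_pos
  have hn := A.n_le_N
  refine A.stepI W 24 (fun _ _ k => A.pf k) (50 * A.N) rfl rfl (A.bl W 1) (A.bl W 1)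
    (A.bN W (by omega)) ?_
    (A.bud hm 2 2 (2 * A.N) (65 * A.N) 520 0 2 0 le_rfl (by omega) (by omega)
      (by omega) (by ring) (by omega) (by omega) (by omega) (by omega))
  intro i hi j hj k hk M h _
  refine ⟨?_, ?_, (A.pf_le k).trans (by omega)⟩
  · simp only [o, one, par, leE, bitE, IE.val, push, r6 h (by omega), r9 h (by omega)]
    rw [sum_congr rfl (g := fun l => bit k l) fun l hl => by
      rw [r4' h (by omega) hm (mem_range.1 hl).le]; rfl]
    rfl
  · simp [o, one, par, leE, bitE, IE.cost, IE.val, r6 h]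
    omega

theorem s25 (H : A.Hyp W) : A.Step W 25 1 26 1 P25 A.T1 := by
  have hm := H.hm
  have hN := N_le H
  have hN0 := A.N_pos
  refine A.stepI W 25 (fun _ _ k => pvF A.pf k) 50 rfl rfl (A.bl W 1) (A.bl W 1)
    (A.bN1 W (by omega)) ?_
    (A.bud hm 2 2 (3 * A.N) 65 780 0 1 0 le_rfl (by omega) (by omega)
      (by omega) (by ring) (by omega) (by omega) (by omega) (by omega))
  intro i hi j hj k hk M h hp
  obtain rfl : i = 0 := by omega
  obtain rfl : j = 0 := by omega
  have := pvE_val M (fun _ => 0) 24 25 0 0 k A.pf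
    (fun k' hk' => r24 h (by omega) (by omega)) hp
  exact ⟨this.1, this.2, (pvF_le _ A.pf_le k).trans (by omega)⟩

theorem s26 (H : A.Hyp W) : A.Step W 26 1 27 1 P26 A.T1 := by
  have hm := H.hm
  have hN0 := A.N_pos
  refine A.stepI W 26 (fun _ _ k => lstF A.pf A.N k) 50 rfl rfl (A.bl W 1) (A.bl W 1)
    (A.bN W (by omega)) ?_
    (A.bud hm 2 2 (2 * A.N) 65 520 0 1 0 le_rfl (by omega) (by omega)
      (by omega) (by ring) (by omega) (by omega) (by omega) (by omega))
  intro i hi j hj k hk M h hp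
  obtain rfl : i = 0 := by omega
  obtain rfl : j = 0 := by omega
  have := lstE_val M (fun _ => 0) 25 26 8 0 0 k A.N A.pf A.pf_le (r8 h (by omega))
    (fun x hx => r25 h (by omega) hx) hp
  exact ⟨this.1, this.2, (lstF_le _ A.pf_le _ k).trans (N_le H)⟩

theorem s27 (H : A.Hyp W) : A.Step W 27 1 28 1 P27 A.T1 := by
  have hm := H.hm
  have hN0 := A.N_pos
  refine A.stepI W 27 (fun _ _ _ => A.rk) (50 * A.N) rfl rfl (A.bl W 1) (A.bl W 1) (A.bl W 1) ?_
    (A.bud hm 2 2 2 (65 * A.N) 520 0 1 0 le_rfl le_rfl le_rfl (by omega) (by ring) (by omega)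
      (by omega) (by omega) (by omega))
  intro i hi j hj k hk M h _
  refine ⟨?_, ?_, A.rk_le.trans (N_le H)⟩
  · simp only [o, par, IE.val, push, r8 h (by omega)]
    exact sum_congr rfl fun l hl => r24 h (by omega) (mem_range.1 hl)
  · simp [o, par, IE.cost, IE.val, r8 h]
    omega

theorem s28 (H : A.Hyp W) : A.Step W 28 1 29 1 (P28 A.q) A.T1 := by
  refine A.stepI W 28 (fun _ _ k => A.rk ^ k) 30 rfl rfl (A.bl W 1) (A.bl W 1) (A.bl W _) ?_
    (A.bud H.hm 2 2 (2 * (A.q + 1)) 45 360 1 0 0 le_rfl le_rfl (by omega) le_rfl (by ring)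
      (by omega) (by omega) (by omega) (by omega))
  intro i hi j hj k hk M h hp
  obtain rfl : i = 0 := by omega
  obtain rfl : j = 0 := by omega
  have := powE_val M (push 0 (push 0 fun _ => 0)) 27 28 k A.rk (r27 h (by omega)) hp
  exact ⟨this.1, this.2,
    (Nat.pow_le_pow_right H.hrk0 (by omega)).trans (H.hrk.trans (N_le H))⟩

theorem s29 (H : A.Hyp W) : A.Step W 29 1 30 1 (P29 A.q) A.T1 := by
  have hm := H.hm
  have hN0 := A.N_pos
  have hr := H.hrk
  refine A.stepI W 29 (fun i j _ => A.tg i j) 50 rfl rfl (A.bR W (by omega)) (A.bl W _)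
    (A.bl W 1) ?_
    (A.bud hm (2 * A.N) (A.q + 1) 2 65 260 1 1 0 (by omega) le_rfl le_rfl le_rfl (by ring)
      (by omega) (by omega) (by omega) (by omega))
  intro i hi j hj k hk M h _
  refine ⟨?_, by simp [o, one, par, IE.cost], (A.tg_lt i j H.hrk0).le.trans (N_le H)⟩
  simp only [o, one, par, IE.val, push, r27 h (by omega), r28 h (by omega) (Nat.lt_succ_of_lt hj)]
  rw [r26 h (by omega) ((Nat.mod_lt _ H.hrk0).trans_le A.rk_le)]
  rfl

end Dat

end Pool.Agent.MP_f91556_lc.AP
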