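import Mathlib
import Pool.Agent.MP_f91556_lc.AP.ProgB

/-! The complex arrays `1` to `6`. -/

namespace Pool.Agent.MP_f91556_lc.AP

open Finset

def hf : IE := .div sg (.lit 2)
def yE (j r : IE) : IE := .get 23 j r o
def cE (j r l : IE) : IE := .sub (.get 17 j (yE j r) l) one

noncomputable def C1 (q : ℕ) : St := tabC 1 (.lit q) (par 8) (par 0)
  (.div (.mul (.sub (.cast hf) (.cast (.get 13 (.var 2) (.var 1) (.var 0))))
    (.lit (2 * Real.pi * Complex.I))) (.cast (par 1)))
noncomputable def C2 (q : ℕ) : St := tabC 2 (.lit q) (par 8) (par 0)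
  (.div (.mul (.root hf) (.sum (par 9) (.prod (.var 0)
      (.div (.get 1 (.var 4) (.var 3) (.var 2)) (.cast (.add (.var 0) one))))))
    (.root (.mul shE (.get 12 (.var 2) (.var 0) o))))
noncomputable def C3 : St := tabC 3 (par 8) (par 8) one
  (.prod (par 6) (.sub (.lit 1) (.mul (.lit 2)
    (.cast (.mul (bitE (.var 3) (.var 0)) (bitE (.var 2) (.var 0)))))))
noncomputable def C4 (q : ℕ) : St := tabC 4 (.lit q) (par 8) (par 0)
  (.div (.sum (par 8) (.mul (.get 3 (.var 0) (.var 2) o) (.get 2 (.var 3) (.var 0) (.var 1))))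
    (.cast (par 8)))
noncomputable def C5 (q : ℕ) : St := tabC 5 (.get 28 o o (.lit q)) one one
  (.sum (par 0) (.mul (.get 0 (.var 0) o o)
    (.prod (.lit q) (.get 4 (.var 0) (.get 29 (.var 4) (.var 0) o) (.var 1)))))
noncomputable def mainE (q : ℕ) : CE :=
  .sum (.get 28 o o (.lit q)) (.mul (.get 5 (.var 0) o o)
    (.prod (.lit q) (.get 3 (yE (.var 0) (.var 4)) (.get 29 (.var 1) (.var 0) o) o)))
noncomputable def corE (q : ℕ) : CE :=
  .mul (.prod (.var 1) (.sub (.lit 1)
      (.cast (.get 15 (.var 0) (yE (.var 0) (.var 5)) (cE (.var 2) (.var 5) (.var 1))))))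
    (.mul (.get 0 (cE (.var 1) (.var 4) (.var 0)) o o)
      (.sub (.root (.mul (.get 2 (.var 4) o o) (.get 3 (cE (.var 1) (.var 4) (.var 0)) o o)))
        (.prod (.lit q) (.get 2 (.var 0) (yE (.var 0) (.var 5)) (cE (.var 2) (.var 5) (.var 1))))))
noncomputable def C6 (q : ℕ) : St := tabC 6 (par 0) one one
  (.add (mainE q) (.sum (.lit q) (.sum (.get 18 (.var 0) (yE (.var 0) (.var 3)) o) (corE q))))

namespace Dat

variable {A : Dat} {W : ℕ}

theorem t1 (H : A.Hyp W) : A.Step W 30 1 30 2 (C1 A.q) A.T1 := by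
  have hm := H.hm
  have hN := A.N_pos
  refine A.stepC W 1 A.x 60 rfl rfl (A.bl W _) (A.bN W (by omega)) (A.bm W (by omega)) ?_
    (A.bud hm (A.q + 1) (2 * A.N) (2 * A.m) 75 300 1 1 1 le_rfl (by omega) (by omega)
      (by omega) (by ring) (by omega) (by omega) (by omega) (by omega))
  intro i hi j hj k hk M h
  refine ⟨?_, by simp [o, par, hf, sg, IE.cost, CE.cost]⟩
  simp only [o, par, hf, sg, IE.val, CE.val, push, r1 h (by omega), r13 h (by omega) hi hj hk,
    r14 h (by omega) hi hk]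
  rfl

theorem t2 (H : A.Hyp W) : A.Step W 30 2 30 3 (C2 A.q) A.T1 := by
  have hm := H.hm
  have hN := A.N_pos
  have hD := A.D_le_N
  have hN2 : 1 ≤ A.N * A.N := Nat.mul_le_mul hN hN
  refine A.stepC W 2 A.H (60 * (A.N * A.N)) rfl rfl (A.bl W _) (A.bN W (by omega))
    (A.bm W (by omega)) ?_
    (A.bud hm (A.q + 1) (2 * A.N) (2 * A.m) (75 * (A.N * A.N)) 300 1 3 1 le_rfl (by omega)
      (by omega) (by omega) (by ring) (by omega) (by omega) (by omega) (by omega))
  intro i hi j hj k hk M h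
  refine ⟨?_, ?_⟩
  · simp only [o, one, par, hf, sg, shE, IE.val, CE.val, push, r9 h (by omega), r7 h (by omega),
      r14 h (by omega) hi hk, r12 h (by omega) hi hk, r22 h (by omega) hi,
      c1 h (by omega) hi hj hk]
    rfl
  · simp only [o, one, par, hf, sg, shE, IE.val, IE.cost, CE.cost, push, r9 h (by omega),
      sum_const, card_range, smul_eq_mul]
    have := sum_le_card_nsmul (range A.D)
      (fun x => 1 + (1 + 1 + x * (1 + (1 + (1 + 1 + 1 + 1) + (1 + (1 + 1 + 1)))))) (13 * A.N)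
      fun x hx => by have := mem_range.1 hx; omega
    rw [card_range, smul_eq_mul] at this
    have h2 : A.D * (13 * A.N) ≤ A.N * (13 * A.N) := Nat.mul_le_mul_right _ hD
    have h3 : A.N * (13 * A.N) = 13 * (A.N * A.N) := by ring
    omega

theorem t3 (H : A.Hyp W) : A.Step W 30 3 30 4 C3 A.T1 := by
  have hm := H.hm
  have hN := A.N_pos
  have hn := A.n_le_N
  refine A.stepC W 3 (fun i j _ => chi A.n i j) (50 * A.N) rfl rfl (A.bN W (by omega))
    (A.bN W (by omega)) (A.bl W 1) ?_
    (A.bud hm (2 * A.N) (2 * A.N) 2 (65 * A.N) 520 0 3 0 (by omega) (by omega)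
      (by omega) (by omega) (by ring) (by omega) (by omega) (by omega) (by omega))
  intro i hi j hj k hk M h
  refine ⟨?_, ?_⟩
  · simp only [o, par, bitE, IE.val, CE.val, push, r6 h (by omega)]
    refine prod_congr rfl fun l hl => ?_
    rw [r4' h (by omega) hm (mem_range.1 hl).le]; rfl
  · simp [o, par, bitE, IE.cost, CE.cost, IE.val, r6 h]
    omega

theorem t4 (H : A.Hyp W) : A.Step W 30 4 30 5 (C4 A.q) A.T1 := by
  have hm := H.hm
  have hN := A.N_pos
  refine A.stepC W 4 A.G (50 * A.N) rfl rfl (A.bl W _) (A.bN W (by omega))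
    (A.bm W (by omega)) ?_
    (A.bud hm (A.q + 1) (2 * A.N) (2 * A.m) (65 * A.N) 260 1 2 1 le_rfl (by omega)
      (by omega) (by omega) (by ring) (by omega) (by omega) (by omega) (by omega))
  intro i hi j hj k hk M h
  refine ⟨?_, ?_⟩
  · simp only [o, par, IE.val, CE.val, push, r8 h (by omega)]
    rw [sum_congr rfl (g := fun T => chi A.n T j * A.H i T k) fun l hl => by
      rw [c3 h (by omega) (mem_range.1 hl) hj, c2 h (by omega) hi (mem_range.1 hl) hk]]
    rfl
  · simp [o, par, IE.cost, CE.cost, IE.val, r8 h]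
    omega

theorem t5 (H : A.Hyp W) : A.Step W 30 5 30 6 (C5 A.q) A.T1 := by
  have hm := H.hm
  have hN := A.N_pos
  have hr := H.hrk
  have hq : A.m ≤ A.m * (A.q + 1) := Nat.le_mul_of_pos_right _ (by omega)
  refine A.stepC W 5 (fun i _ _ => A.U i) (50 * (A.m * (A.q + 1))) rfl rfl (A.bR W (by omega))
    (A.bl W 1) (A.bl W 1) ?_
    (A.bud hm (2 * A.N) 2 2 (65 * (A.m * (A.q + 1))) 520 1 1 1 (by omega) le_rfl le_rfl
      (by omega) (by ring) (by omega) (by omega) (by omega) (by omega))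
  intro i hi j hj k hk M h
  refine ⟨?_, ?_⟩
  · simp only [o, par, IE.val, CE.val, push, r0 h (by omega)]
    refine sum_congr rfl fun c hc => ?_
    rw [c0 h (by omega) (mem_range.1 hc)]
    refine congrArg _ (prod_congr rfl fun l hl => ?_)
    rw [r29 h (by omega) hi (mem_range.1 hl),
      c4 h (by omega) (mem_range.1 hl) (A.tg_lt _ _ H.hrk0) (mem_range.1 hc)]
  · simp [o, par, IE.cost, CE.cost, IE.val, r0 h]
    nlinarith

theorem mainE_val (H : A.Hyp W) {M : Mem} (h : (A.plan W).Good 30 6 M) {r : ℕ} (hr : r < A.m)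
    (a b : ℕ) (e : ℕ → ℕ) :
    (mainE A.q).val A.om M (push a (push b (push r e))) =
      ∑ t ∈ range (A.rk ^ A.q), A.U t * ∏ j ∈ range A.q, chi A.n (A.y j r) (A.tg t j) ∧
    (mainE A.q).cost M (push a (push b (push r e))) ≤ 30 * (A.N * (A.q + 1)) := by
  refine ⟨?_, ?_⟩
  · simp only [mainE, yE, o, IE.val, CE.val, push, r28 h (by omega) (Nat.lt_succ_self _)]
    refine sum_congr rfl fun t ht => ?_
    rw [c5 h (by omega) (mem_range.1 ht)]
    refine congrArg _ (prod_congr rfl fun l hl => ?_)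
    rw [r29 h (by omega) (mem_range.1 ht) (mem_range.1 hl), r23 h (by omega) (mem_range.1 hl) hr,
      c3 h (by omega) (A.y_lt _ _) (A.tg_lt _ _ H.hrk0)]
  · simp only [mainE, yE, o, IE.val, IE.cost, CE.cost, r28 h (by omega) (Nat.lt_succ_self _),
      sum_const, card_range, smul_eq_mul]
    have h1 := H.hrk
    have h2 := A.N_pos
    generalize A.rk ^ A.q = u at *
    have h3 : u * A.q ≤ A.N * A.q := Nat.mul_le_mul_right _ h1
    nlinarith

theorem corE_val {M : Mem} (h : (A.plan W).Good 30 6 M) {r j l : ℕ} (hr : r < A.m)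
    (hj : j < A.q) (hl : l < A.cnt j (A.y j r)) (a b : ℕ) (e : ℕ → ℕ) :
    (corE A.q).val A.om M (push l (push j (push a (push b (push r e))))) =
      A.corr r j (lstF (A.atp j (A.y j r)) A.m l - 1) ∧
    (corE A.q).cost M (push l (push j (push a (push b (push r e))))) ≤ 60 * (A.q + 1) := by
  have hc := (lstF_mem _ (A.atp_le j (A.y j r)) A.m l hl).1
  have hl' : l < A.m := hl.trans_le (A.cnt_le_m _ _)
  refine ⟨?_, ?_⟩
  · simp only [corE, cE, yE, o, one, IE.val, CE.val, push, r23 h (by omega) hj hr,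
      r17 h (by omega) hj (A.y_lt j r) hl', c0 h (by omega) hc, r2 h (by omega) hr,
      r3 h (by omega) hc]
    unfold corr
    rw [prod_congr rfl (g := fun j' => 1 - (A.atp j' (A.y j' r)
        (lstF (A.atp j (A.y j r)) A.m l - 1) : ℂ)) fun j' hj' => by
      have : j' < A.q := (mem_range.1 hj').trans hj
      rw [r23 h (by omega) this hr, r15 h (by omega) this (A.y_lt _ _) hc],
      prod_congr rfl (s₁ := range A.q) (g := fun j' => A.H j' (A.y j' r)
        (lstF (A.atp j (A.y j r)) A.m l - 1)) fun j' hj' => by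
      have : j' < A.q := mem_range.1 hj'
      rw [r23 h (by omega) this hr, c2 h (by omega) this (A.y_lt _ _) hc]]
  · simp only [corE, cE, yE, o, one, IE.val, IE.cost, CE.cost, push, sum_const, card_range,
      smul_eq_mul]
    omega

/-- The time of the last table. -/
def T2 (A : Dat) : ℕ := A.T1 + 61 * (A.q + 1) * ∑ j ∈ range A.q, A.NN j (A.sh j)

theorem t6 (H : A.Hyp W) : A.Step W 30 6 30 7 (C6 A.q) A.T2 := by
  have hm := H.hm
  have hN := A.N_pos
  have hq : A.q + 1 ≤ A.N * (A.q + 1) := Nat.le_mul_of_pos_left _ hN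
  intro M hM
  refine (A.plan W).stepC' A.om 30 6 (par 0) one one _ _ 10 A.T2
    (fun r _ _ => 60 * (A.N * (A.q + 1)) + 61 * (A.q + 1) * ∑ j ∈ range A.q, A.cnt j (A.y j r))
    (A.bm W (by omega)) (A.bl W 1) (A.bl W 1) ?_ ?_ M hM
  · intro r hr a _ b _ M h
    replace hr : r < A.m := hr
    obtain ⟨m1, m2⟩ := mainE_val H h hr b a (fun _ => 0)
    refine ⟨?_, ?_⟩
    · simp only [CE.val, m1, IE.val, yE, o, push]
      refine congrArg _ (sum_congr rfl fun j hj => ?_)
      have hj := mem_range.1 hj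
      rw [r23 h (by omega) hj hr, r18 h (by omega) hj (A.y_lt _ _)]
      exact sum_congr rfl fun l hl => (corE_val h hr hj (mem_range.1 hl) b a _).1
    · simp only [CE.cost, IE.val, IE.cost, yE, o, push]
      have : ∑ j ∈ range A.q, (1 + (1 + (1 + 1 + (1 + 1 + 1 + 1) + 1) +
          ∑ l ∈ range (M.I 18 j (M.I 23 j r 0) 0), (1 + (corE A.q).cost M
            (push l (push j (push b (push a (push r fun _ => 0)))))))) ≤
          ∑ j ∈ range A.q, (9 + 61 * (A.q + 1) * A.cnt j (A.y j r)) := by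
        refine sum_le_sum fun j hj => ?_
        have hj := mem_range.1 hj
        rw [r23 h (by omega) hj hr, r18 h (by omega) hj (A.y_lt _ _)]
        have := sum_le_card_nsmul (range (A.cnt j (A.y j r))) (fun l => 1 + (corE A.q).cost M
            (push l (push j (push b (push a (push r fun _ => 0)))))) (61 * (A.q + 1))
          fun l hl => by have := (corE_val h hr hj (mem_range.1 hl) b a fun _ => 0).2; omega
        rw [card_range, smul_eq_mul, mul_comm] at this
        omega
      rw [sum_add_distrib (f := fun _ => 9), sum_const, card_range, smul_eq_mul, ← mul_sum] at this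
      omega
  · show 1 + 10 + ∑ r ∈ range A.m, (1 + 10 + ∑ _j ∈ range 1, (1 + 10 + ∑ _k ∈ range 1,
      (60 * (A.N * (A.q + 1)) + 61 * (A.q + 1) * ∑ j ∈ range A.q, A.cnt j (A.y j r)))) ≤ A.T2
    simp only [sum_range_one, ← add_assoc]
    rw [sum_add_distrib, sum_const, card_range, smul_eq_mul, ← mul_sum, sum_comm, ← add_assoc]
    refine Nat.add_le_add ?_ le_rfl
    have := A.bud hm (a1 := A.m) (a2 := 100 * (A.N * (A.q + 1))) (a3 := 1) (a4 := 1)
      A.m (100 * (A.N * (A.q + 1))) 1 1 100 1 1 1 le_rfl le_rfl le_rfl le_rfl (by ring)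
      (by omega) (by omega) (by omega) (by omega)
    generalize A.N * (A.q + 1) = u at *
    nlinarith

end Dat

end Pool.Agent.MP_f91556_lc.AP
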