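import Mathlib
import Pool.Agent.MP_f91556_lc.AP.ProgC

/-! The whole program and the choice of its constants. -/

namespace Pool.Agent.MP_f91556_lc.AP

open Finset

noncomputable def prog (q Q1 Q2 : ℕ) : St :=
  .seq P4 <| .seq P5 <| .seq P6 <| .seq P7 <| .seq P8 <| .seq (P9 Q1) <| .seq (P10 Q2) <|
  .seq (P11 q) <| .seq (P12 q) <| .seq (P13 q) <| .seq (P14 q) <| .seq (P15 q) <|
  .seq (P16 q) <| .seq (P17 q) <| .seq (P18 q) <| .seq (P19 q) <| .seq (P20 q) <|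
  .seq (P21 q) <| .seq (P22 q) <| .seq (P23 q) <| .seq P24 <| .seq P25 <| .seq P26 <|
  .seq P27 <| .seq (P28 q) <| .seq (P29 q) <| .seq (C1 q) <| .seq (C2 q) <| .seq C3 <|
  .seq (C4 q) <| .seq (C5 q) (C6 q)

namespace Dat

variable {A : Dat} {W : ℕ}

theorem Step.mono {p p' r r' : ℕ} {P : St} {T T' : ℕ} (h : A.Step W p p' r r' P T)
    (hT : T ≤ T') : A.Step W p p' r r' P T' :=
  fun M hM => ⟨(h M hM).1, (h M hM).2.trans (Nat.add_le_add_left hT _)⟩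

theorem run_ok (H : A.Hyp W) :
    A.Step W 4 1 30 7 (prog A.q A.Q1 A.Q2) (31 * A.T1 + A.T2) := by
  have := (s4 H).seq <| (s5 H).seq <| (s6 H).seq <| (s7 H).seq <| (s8 H).seq <| (s9 H).seq <|
    (s10 H).seq <| (s11 H).seq <| (s12 H).seq <| (s13 H).seq <| (s14 H).seq <| (s15 H).seq <|
    (s16 H).seq <| (s17 H).seq <| (s18 H).seq <| (s19 H).seq <| (s20 H).seq <| (s21 H).seq <|
    (s22 H).seq <| (s23 H).seq <| (s24 H).seq <| (s25 H).seq <| (s26 H).seq <| (s27 H).seq <|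
    (s28 H).seq <| (s29 H).seq <| (t1 H).seq <| (t2 H).seq <| (t3 H).seq <| (t4 H).seq <|
    (t5 H).seq (t6 H)
  unfold prog
  exact this.mono (by omega)

theorem m_lt (A : Dat) : A.m < 2 ^ (4 * A.n) := by
  have := Nat.lt_pow_succ_log_self (b := 16) (by norm_num) A.m
  rwa [pow_mul]

theorem rk_pos (hD : 1 ≤ A.D) : 0 < A.rk := by
  have h0 : A.pf 0 = 1 := by
    have : pop A.n 0 = 0 := by simp [pop, bit]
    unfold pf le1; omega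
  have := single_le_sum (f := A.pf) (s := range A.N) (fun _ _ => Nat.zero_le _)
    (mem_range.2 A.N_pos)
  unfold rk; omega

theorem rk_pow (hq : 1 ≤ A.q) (hQ : A.Q1 = 4 * A.q ^ 2) : A.rk ^ A.q ≤ A.N := by
  have hq' : (1 : ℝ) ≤ A.q := by exact_mod_cast hq
  have h1 := pop_count A.n A.D (1 / (4 * A.q)) (by positivity)
    (by rw [div_le_one (by positivity)]; linarith) A.pf A.pf_le
    (fun S hS => by unfold pf le1 at hS; omega)
  have h2 : (A.rk : ℝ) ≤ (1 + 1 / (4 * A.q)) ^ A.n * (4 * A.q) ^ A.D := by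
    rwa [one_div_pow, div_div_eq_mul_div, div_one] at h1
  have h3 : (1 + 1 / (4 * (A.q : ℝ))) ^ (2 * A.q) ≤ 2 := by
    calc _ ≤ Real.exp (1 / (4 * A.q)) ^ (2 * A.q) := by
          gcongr; linarith [Real.add_one_le_exp (1 / (4 * (A.q : ℝ)))]
      _ = Real.exp (1 / 2) := by
          rw [← Real.exp_nat_mul]; congr 1; push_cast; field_simp; norm_num
      _ ≤ 2 := by
          have := Real.exp_one_lt_d9
          have h := Real.exp_add (1 / 2) (1 / 2)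
          norm_num at h
          nlinarith [Real.exp_pos (1 / 2)]
  have h4 : 4 * A.q ≤ 2 ^ (2 * A.q) := by
    have : A.q - 1 < 2 ^ (A.q - 1) := Nat.lt_two_pow_self
    calc 4 * A.q ≤ 4 * 2 ^ (A.q - 1) := by omega
      _ = 2 ^ (A.q - 1 + 2) := by ring
      _ ≤ _ := Nat.pow_le_pow_right (by norm_num) (by omega)
  have h4' : 4 * (A.q : ℝ) ≤ 2 ^ (2 * A.q) := by exact_mod_cast h4
  have h5 : 2 * A.q * (A.D * (2 * A.q)) ≤ A.n := by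
    have := Nat.div_mul_le_self A.n A.Q1
    rw [hQ] at this
    unfold D; rw [hQ]; nlinarith
  have h6 : ((A.rk : ℝ) ^ A.q) ^ 2 ≤ ((2 : ℝ) ^ A.n) ^ 2 := by
    calc _ = (A.rk : ℝ) ^ (2 * A.q) := by ring
      _ ≤ ((1 + 1 / (4 * A.q)) ^ A.n * (4 * A.q) ^ A.D) ^ (2 * A.q) := by gcongr
      _ = ((1 + 1 / (4 * A.q)) ^ (2 * A.q)) ^ A.n * (4 * A.q) ^ (A.D * (2 * A.q)) := by
          rw [mul_pow, ← pow_mul, ← pow_mul, ← pow_mul, mul_comm A.n]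
      _ ≤ 2 ^ A.n * (2 ^ (2 * A.q)) ^ (A.D * (2 * A.q)) := by gcongr
      _ ≤ 2 ^ A.n * 2 ^ A.n := by
          rw [← pow_mul]; gcongr; norm_num
      _ = _ := by ring
  have h7 := le_of_sq_le_sq h6 (by positivity)
  unfold N
  exact_mod_cast h7

theorem taylor (κ g : ℕ) (hg : 4 * κ * A.n + A.q + 1 ≤ g * A.D)
    (hD : 8 * 2 ^ (g + 1) * (A.t + 2) ≤ A.D) (hm : 1 ≤ A.m) :
    (4 * ((A.t : ℝ) + 2)) ^ A.D / (A.D.factorial : ℝ) * 2 * 2 ^ A.q ≤ 1 / (A.m : ℝ) ^ κ := by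
  set x : ℝ := 4 * ((A.t : ℝ) + 2) with hx
  have hx0 : 0 ≤ x := by positivity
  have h1 := Real.pow_div_factorial_le_exp (2 ^ (g + 1) * x) (by positivity) A.D
  have h2 : 2 ^ (g + 1) * x ≤ A.D * (1 / 2) := by
    have : (8 : ℝ) * 2 ^ (g + 1) * (A.t + 2) ≤ A.D := by exact_mod_cast hD
    rw [hx]; linarith
  have h3 : Real.exp (2 ^ (g + 1) * x) ≤ 2 ^ A.D := by
    refine (Real.exp_le_exp.2 h2).trans ?_
    rw [Real.exp_nat_mul]
    gcongr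
    have := Real.exp_one_lt_d9
    have h := Real.exp_add (1 / 2) (1 / 2)
    norm_num at h
    nlinarith [Real.exp_pos (1 / 2)]
  have h4 : x ^ A.D / (A.D.factorial : ℝ) * 2 ^ (g * A.D) ≤ 1 := by
    have h5 := h1.trans h3
    rw [mul_pow, ← pow_mul, add_mul, one_mul, pow_add, mul_div_assoc] at h5
    have h6 : (0 : ℝ) < 2 ^ A.D := by positivity
    nlinarith
  have h7 : (A.m : ℝ) ^ κ ≤ 2 ^ (4 * κ * A.n) := by
    have : (A.m : ℝ) ≤ 2 ^ (4 * A.n) := by exact_mod_cast A.m_lt.le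
    calc _ ≤ ((2 : ℝ) ^ (4 * A.n)) ^ κ := by gcongr
      _ = _ := by rw [← pow_mul]; ring_nf
  have h8 : (2 : ℝ) ^ (4 * κ * A.n + A.q + 1) ≤ 2 ^ (g * A.D) :=
    pow_le_pow_right₀ (by norm_num) hg
  have hm' : (0 : ℝ) < A.m := by exact_mod_cast hm
  rw [le_div_iff₀ (by positivity)]
  have h9 : 0 ≤ x ^ A.D / (A.D.factorial : ℝ) := by positivity
  calc _ ≤ x ^ A.D / (A.D.factorial : ℝ) * 2 * 2 ^ A.q * 2 ^ (4 * κ * A.n) := by gcongr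
    _ = x ^ A.D / (A.D.factorial : ℝ) * 2 ^ (4 * κ * A.n + A.q + 1) := by ring
    _ ≤ x ^ A.D / (A.D.factorial : ℝ) * 2 ^ (g * A.D) := by gcongr
    _ ≤ 1 := h4

theorem saving (hm : 1 ≤ A.m) (hQ : 1 ≤ A.Q2) (ht : A.n ≤ 2 * A.Q2 * A.t) :
    Real.exp (-((A.t : ℝ) ^ 2 / (2 * A.n))) ≤ (A.m : ℝ) ^ (-(1 / (32 * (A.Q2 : ℝ) ^ 2))) := by
  have hm' : (0 : ℝ) < A.m := by exact_mod_cast hm
  have hQ' : (0 : ℝ) < A.Q2 := by exact_mod_cast hQ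
  have hn : (0 : ℝ) < A.n := by exact_mod_cast Nat.succ_pos A.b
  have ht' : (A.n : ℝ) ≤ 2 * A.Q2 * A.t := by exact_mod_cast ht
  have h1 : Real.log A.m ≤ 4 * A.n := by
    have : (A.m : ℝ) ≤ 2 ^ (4 * A.n) := by exact_mod_cast A.m_lt.le
    refine (Real.log_le_log hm' this).trans ?_
    rw [Real.log_pow]
    have := Real.log_two_lt_d9
    push_cast
    nlinarith
  rw [Real.rpow_def_of_pos hm', Real.exp_le_exp, mul_neg, neg_le_neg_iff, mul_one_div,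
    div_le_div_iff₀ (by positivity) (by positivity)]
  have h2 : (A.n : ℝ) ^ 2 ≤ (2 * A.Q2 * A.t) ^ 2 := by gcongr
  nlinarith

theorem T1_le (hm : 1 ≤ A.m) :
    (A.T1 : ℝ) ≤ 80000 * ((A.q : ℝ) + 1) ^ 2 * (A.m : ℝ) ^ (2 - 1 / 4 : ℝ) := by
  have hm' : (0 : ℝ) < A.m := by exact_mod_cast hm
  have h1 : (A.B : ℝ) ^ 4 ≤ A.m := by
    have : A.B ^ 4 ≤ A.m := by
      have := A.pow16_le hm
      unfold B
      rwa [← pow_mul, mul_comm, pow_mul]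
    exact_mod_cast this
  have h2 : (A.B : ℝ) ^ 3 ≤ (A.m : ℝ) ^ (3 / 4 : ℝ) := by
    calc _ = ((A.B : ℝ) ^ 4) ^ (3 / 4 : ℝ) := by
          rw [← Real.rpow_natCast, ← Real.rpow_natCast, ← Real.rpow_mul (by positivity)]
          norm_num
      _ ≤ _ := by gcongr
  have h3 : (A.m : ℝ) ^ (2 - 1 / 4 : ℝ) = (A.m : ℝ) ^ (3 / 4 : ℝ) * A.m := by
    rw [← Real.rpow_add_one hm'.ne']; norm_num
  have h4 : (A.N : ℝ) = 2 * A.B := by exact_mod_cast A.N_eq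
  unfold T1
  push_cast
  rw [h3, h4]
  calc _ = 80000 * ((A.q : ℝ) + 1) ^ 2 * ((A.B : ℝ) ^ 3 * A.m) := by ring
    _ ≤ _ := by gcongr

theorem time_le (hm : 1 ≤ A.m) (hd : 0 < A.d) (hQ : 1 ≤ A.Q2) (ht : A.n ≤ 2 * A.Q2 * A.t) :
    ((31 * A.T1 + A.T2 : ℕ) : ℝ) ≤
      3000000 * ((A.q : ℝ) + 1) ^ 2 * (A.m : ℝ) ^ (2 - 1 / (32 * (A.Q2 : ℝ) ^ 2)) := by
  have hm' : (1 : ℝ) ≤ A.m := by exact_mod_cast hm
  have hQ' : (1 : ℝ) ≤ A.Q2 := by exact_mod_cast hQ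
  set ε := 1 / (32 * (A.Q2 : ℝ) ^ 2) with hε
  have h0 : ε ≤ 1 / 4 := by
    rw [hε]; exact one_div_le_one_div_of_le (by norm_num) (by nlinarith)
  have h1 : (A.m : ℝ) ^ (2 - 1 / 4 : ℝ) ≤ (A.m : ℝ) ^ (2 - ε) :=
    Real.rpow_le_rpow_of_exponent_le hm' (by linarith)
  have h2 := T1_le hm
  have h3 : ∀ j, (A.NN j (A.sh j) : ℝ) ≤ 4 * (A.m : ℝ) ^ (2 - ε) := by
    intro j
    refine (A.NN_bound hd j).trans ?_
    rw [sub_eq_add_neg, Real.rpow_add (by linarith), Real.rpow_two, mul_assoc]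
    gcongr
    exact saving hm hQ ht
  have h4 : ((∑ j ∈ range A.q, A.NN j (A.sh j) : ℕ) : ℝ) ≤ A.q * (4 * (A.m : ℝ) ^ (2 - ε)) := by
    rw [Nat.cast_sum]
    simpa using sum_le_card_nsmul (range A.q) _ _ fun j _ => h3 j
  have h5 : 0 ≤ (A.m : ℝ) ^ (2 - ε) := by positivity
  have h6 : (0 : ℝ) ≤ A.q := by positivity
  unfold T2
  rw [Nat.cast_add, Nat.cast_add, Nat.cast_mul, Nat.cast_mul _ (∑ j ∈ range A.q, _)]
  generalize ((∑ j ∈ range A.q, A.NN j (A.sh j) : ℕ) : ℝ) = S at *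
  push_cast
  have h7 : ((A.q : ℝ) + 1) * S ≤ (A.q + 1) * (A.q * (4 * (A.m : ℝ) ^ (2 - ε))) := by gcongr
  have h8 : ((A.q : ℝ) + 1) ^ 2 * (A.m : ℝ) ^ (2 - 1 / 4 : ℝ) ≤
      ((A.q : ℝ) + 1) ^ 2 * (A.m : ℝ) ^ (2 - ε) := by gcongr
  nlinarith [mul_nonneg h6 h5, mul_nonneg h6 (mul_nonneg h6 h5)]

end Dat

end Pool.Agent.MP_f91556_lc.AP
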