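import Mathlib
import Pool.Agent.MP_f91556_lc.AP.Run

/-! The theorem. -/

namespace Pool.Agent.MP_f91556_lc.AP

open Finset

/-- The data of one run. -/
noncomputable def dat (q Q1 Q2 m d : ℕ) (R C : Fin m → Fin d) (v : Fin m → ℂ) : Dat :=
  ⟨q, Q1, Q2, m, d, fun i => if h : i < m then R ⟨i, h⟩ else 0,
    fun i => if h : i < m then C ⟨i, h⟩ else 0, fun i => if h : i < m then v ⟨i, h⟩ else 0⟩

theorem init_good (q Q1 Q2 m d W : ℕ) (hm : 1 ≤ m) (R C : Fin m → Fin d) (v : Fin m → ℂ) :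
    ((dat q Q1 Q2 m d R C v).plan W).Good 4 1 (init m d R C v) := by
  have hm' : 0 < m := hm
  refine ⟨fun a ha i hi j hj k hk => ?_, fun a ha i hi j hj k hk => ?_, Nat.zero_le _⟩
  · interval_cases a
    all_goals
      simp only [Dat.plan, Dat.dI, dat, Nat.lt_one_iff] at hi hj hk
      simp [init, Dat.plan, Dat.SI, dat, hi, hj, hk, hm']
  · interval_cases a
    simp only [Dat.plan, Dat.dZ, dat, Nat.lt_one_iff] at hi hj hk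
    simp [init, Dat.plan, Dat.SZ, dat, hi, hj, hk]

theorem Dat.all (A : Dat) (c κ : ℕ) (hq : A.q = 8 * (c + 1)) (hQ1 : A.Q1 = 4 * A.q ^ 2)
    (hQ2 : A.Q2 = 32 * 2 ^ (2 * A.Q1 * (4 * κ + 1) + 1) * A.Q1) (hm : 16 ^ A.Q2 ≤ A.m)
    (hd : 0 < A.d) (hdc : A.d ≤ A.m ^ c) (M : Mem)
    (hM : (A.plan (A.m ^ (A.q + 2))).Good 4 1 M) :
    ((prog A.q A.Q1 A.Q2).run0 A.om (fun _ => 0) M).word ≤ A.m ^ (A.q + 2) ∧
    (((prog A.q A.Q1 A.Q2).run0 A.om (fun _ => 0) M).time : ℝ) ≤ M.time +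
      3000000 * ((A.q : ℝ) + 1) ^ 2 * (A.m : ℝ) ^ (2 - 1 / (32 * (A.Q2 : ℝ) ^ 2)) ∧
    ∀ r < A.m, A.R r < A.d →
      ‖((prog A.q A.Q1 A.Q2).run0 A.om (fun _ => 0) M).Z 6 r 0 0 -
        ∑ c ∈ range A.m, A.v c * A.om ^ (A.R r * A.C c)‖ ≤
        (∑ c ∈ range A.m, ‖A.v c‖) * (1 / (A.m : ℝ) ^ κ) := by
  set g := 2 * A.Q1 * (4 * κ + 1) with hg
  set G := 2 ^ (g + 1) with hG
  have hG1 : 1 ≤ G := Nat.one_le_two_pow
  have hq1 : 1 ≤ A.q := by omega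
  have hQq : A.q + 1 ≤ A.Q1 := by rw [hQ1]; nlinarith
  have hQ12 : A.Q1 ≤ A.Q2 := by rw [hQ2]; exact Nat.le_mul_of_pos_left _ (by omega)
  have hm16 : 16 ≤ A.m := (Nat.le_self_pow (by omega) 16).trans hm
  have hm1 : 1 ≤ A.m := by omega
  have hb : A.Q2 ≤ A.b := Nat.le_log_of_pow_le (by norm_num) hm
  have hn : A.n = A.b + 1 := rfl
  have hD1 : 32 * G ≤ A.D := (Nat.le_div_iff_mul_le (by omega)).2 (by omega)
  have hD2 : A.n ≤ 2 * A.Q1 * A.D := by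
    have := Nat.lt_mul_div_succ A.n (show 0 < A.Q1 by omega)
    have h1 : A.Q1 * 1 ≤ A.Q1 * A.D := Nat.mul_le_mul_left _ (by omega)
    unfold D at *; nlinarith
  have ht1 : 1 ≤ A.t := (Nat.le_div_iff_mul_le (by omega)).2 (by omega)
  have ht2 : A.n ≤ 2 * A.Q2 * A.t := by
    have := Nat.lt_mul_div_succ A.n (show 0 < A.Q2 by omega)
    have h1 : A.Q2 * 1 ≤ A.Q2 * A.t := Nat.mul_le_mul_left _ ht1
    unfold t at *; nlinarith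
  have ht3 : 16 * (G * A.t) ≤ A.D := by
    have h1 : A.Q2 * A.t ≤ A.n := Nat.mul_div_le _ _
    rw [hQ2] at h1
    refine Nat.le_of_mul_le_mul_left (c := 2 * A.Q1) ?_ (by omega)
    nlinarith
  have hD3 : 8 * G * (A.t + 2) ≤ A.D := by nlinarith
  have hD4 : 8 * (A.t + 2) ≤ A.D := le_trans (by nlinarith) hD3
  have hD5 : 4 * κ * A.n + A.q + 1 ≤ g * A.D := by
    have : (4 * κ + 1) * A.n ≤ (4 * κ + 1) * (2 * A.Q1 * A.D) := Nat.mul_le_mul_left _ hD2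
    rw [hg]; nlinarith
  have hB := A.B_le_m hm1
  have hN := A.N_eq
  have hmB : A.m ^ c ≤ A.B ^ A.q := by
    have h1 : A.m ≤ A.B ^ 8 := by
      refine A.m_lt.le.trans ?_
      unfold B
      rw [← pow_mul]
      exact Nat.pow_le_pow_right (by norm_num) (by omega)
    calc _ ≤ (A.B ^ 8) ^ c := Nat.pow_le_pow_left h1 _
      _ = A.B ^ (8 * c) := by rw [← pow_mul]
      _ ≤ _ := Nat.pow_le_pow_right A.B_pos (by omega)
  have hw : ∀ k ≤ A.q, A.m * A.m * A.m ^ k ≤ A.m ^ (A.q + 2) := fun k hk => by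
    calc _ = A.m ^ (k + 2) := by ring
      _ ≤ _ := Nat.pow_le_pow_right hm1 (by omega)
  have hw0 := hw 0 (by omega)
  have H : A.Hyp (A.m ^ (A.q + 2)) :=
    ⟨hm1, hd, rk_pos (by omega), rk_pow hq1 hQ1, by nlinarith,
      (Nat.pow_le_pow_left hB _).trans (Nat.pow_le_pow_right hm1 (by omega)),
      le_trans (Nat.mul_le_mul (by nlinarith) hdc) (hw c (by omega)), by simpa using hw0⟩
  obtain ⟨h1, h2⟩ := run_ok H M hM
  refine ⟨h1.word, ?_, fun r hr hR => ?_⟩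
  · refine le_trans ?_ (add_le_add le_rfl (time_le hm1 hd (by omega) ht2))
    rw [← Nat.cast_add, Nat.cast_le]
    exact h2
  · rw [c6 h1 (by omega) hr]
    refine A.out_err hd hD4 _ ?_ (taylor κ g hD5 hD3 hm1) r (hR.trans_le (hdc.trans hmB))
    rw [div_le_one (by positivity)]
    exact one_le_pow₀ (by exact_mod_cast hm1)

theorem main0 (c κ : ℕ) :
    ∃ (P : St) (o : ℕ) (δ : ℝ) (K m₀ : ℕ), 0 < δ ∧
      ∀ m d : ℕ, m₀ ≤ m → d ≤ m ^ c → ∀ (R C : Fin m → Fin d) (v : Fin m → ℂ) (ω : ℂ) (M : Mem),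
        ω = Complex.exp (-2 * Real.pi * Complex.I / d) →
        M = P.run0 ω (fun _ => 0) (init m d R C v) →
        (M.time : ℝ) ≤ (m : ℝ) ^ (2 - δ) ∧ M.word ≤ m ^ K ∧
        ∀ r : Fin m, ‖M.Z o r 0 0 - ∑ k : Fin m, v k * ω ^ ((R r : ℕ) * (C k : ℕ))‖ ≤
          (∑ k : Fin m, ‖v k‖) / (m : ℝ) ^ κ := by
  obtain ⟨q, hq⟩ : ∃ q, q = 8 * (c + 1) := ⟨_, rfl⟩
  obtain ⟨Q1, hQ1⟩ : ∃ Q1, Q1 = 4 * q ^ 2 := ⟨_, rfl⟩
  obtain ⟨Q2, hQ2⟩ : ∃ Q2, Q2 = 32 * 2 ^ (2 * Q1 * (4 * κ + 1) + 1) * Q1 := ⟨_, rfl⟩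
  have hQ : 0 < Q2 := by rw [hQ2, hQ1, hq]; positivity
  have hQ' : (0 : ℝ) < Q2 := by exact_mod_cast hQ
  obtain ⟨δ, hδ⟩ : ∃ δ : ℝ, δ = 1 / (32 * (Q2 : ℝ) ^ 2) / 2 := ⟨_, rfl⟩
  have hδ0 : 0 < δ := by rw [hδ]; positivity
  obtain ⟨m₁, hm₁⟩ := Filter.eventually_atTop.1
    (((tendsto_rpow_atTop hδ0).comp tendsto_natCast_atTop_atTop).eventually_ge_atTop
      (3000000 * ((q : ℝ) + 1) ^ 2))
  refine ⟨prog q Q1 Q2, 6, δ, q + 2, max (16 ^ Q2) m₁, hδ0, ?_⟩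
  intro m d hm hdc R C v ω M hω hM
  have hm16 : 16 ^ Q2 ≤ m := (le_max_left _ _).trans hm
  have hm1 : 1 ≤ m := Nat.one_le_pow _ _ (by norm_num) |>.trans hm16
  have hm0 : (0 : ℝ) < m := by exact_mod_cast hm1
  have hd : 0 < d := (R ⟨0, hm1⟩).pos
  obtain ⟨h1, h2, h3⟩ := (dat q Q1 Q2 m d R C v).all c κ hq hQ1 hQ2 hm16 hd hdc _
    (init_good q Q1 Q2 m d _ hm1 R C v)
  have e1 : (dat q Q1 Q2 m d R C v).om = ω := hω.symm
  have e2 : prog (dat q Q1 Q2 m d R C v).q (dat q Q1 Q2 m d R C v).Q1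
    (dat q Q1 Q2 m d R C v).Q2 = prog q Q1 Q2 := rfl
  rw [e1, e2, ← hM] at h1 h2 h3
  refine ⟨h2.trans ?_, h1, fun r => ?_⟩
  · have h4 : 3000000 * ((q : ℝ) + 1) ^ 2 ≤ (m : ℝ) ^ δ := hm₁ m ((le_max_right _ _).trans hm)
    have h5 : (m : ℝ) ^ (2 - δ) = (m : ℝ) ^ δ * (m : ℝ) ^ (2 - 1 / (32 * (Q2 : ℝ) ^ 2)) := by
      rw [← Real.rpow_add hm0]; congr 1; linarith
    rw [h5]
    simp only [init, dat, Nat.cast_zero, zero_add]
    gcongr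
  · have := h3 r r.2 (by simp [dat])
    simp only [dat, Finset.sum_range, Fin.is_lt, dite_true, Fin.eta] at this
    rwa [mul_one_div] at this

end Pool.Agent.MP_f91556_lc.AP
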