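import Mathlib
import Pool.Agent.MP_f91556_lc.AP.Ghost

/-! If the stored integers are small, then all computed integers are polynomially bounded. -/

namespace Pool.Agent.MP_f91556_lc.AP

open Finset

/-- Change the record of the largest integer only. -/
def Mem.ww (M : Mem) (w : ℕ) : Mem := { M with word := w }

theorem ww_I (M : Mem) (w : ℕ) : (M.ww w).I = M.I := rfl
theorem ww_Z (M : Mem) (w : ℕ) : (M.ww w).Z = M.Z := rfl

theorem IE.val_ww (M : Mem) (w : ℕ) (x : IE) : ∀ e, x.val (M.ww w) e = x.val M e := by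
  induction x <;> intro e <;> simp [IE.val, ww_I, *]

theorem IE.cost_ww (M : Mem) (w : ℕ) (x : IE) : ∀ e, x.cost (M.ww w) e = x.cost M e := by
  induction x <;> intro e <;> simp [IE.cost, IE.val_ww, *]

theorem IE.big_ww (M : Mem) (w : ℕ) (x : IE) : ∀ e, x.big (M.ww w) e = x.big M e := by
  induction x <;> intro e <;> simp only [IE.big, IE.val_ww, *]

theorem CE.val_ww (ω : ℂ) (M : Mem) (w : ℕ) (x : CE) :
    ∀ e, x.val ω (M.ww w) e = x.val ω M e := by
  induction x <;> intro e <;> simp [CE.val, IE.val_ww, ww_Z, *]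

theorem CE.cost_ww (M : Mem) (w : ℕ) (x : CE) : ∀ e, x.cost (M.ww w) e = x.cost M e := by
  induction x <;> intro e <;> simp [CE.cost, IE.val_ww, IE.cost_ww, *]

theorem CE.big_ww (M : Mem) (w : ℕ) (x : CE) : ∀ e, x.big (M.ww w) e = x.big M e := by
  induction x <;> intro e <;> simp only [CE.big, IE.val_ww, IE.big_ww, *]

theorem St.run_ww (ω : ℂ) (P : St) :
    ∀ e M w, ∃ w', P.run ω e (Mem.ww M w) = (P.run0 ω e M).ww w' := by
  induction P with
  | setI a i j k x =>
    intro e M w
    simp only [St.run, St.run0, IE.val_ww, IE.cost_ww]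
    exact ⟨_, rfl⟩
  | setC a i j k z =>
    intro e M w
    simp only [St.run, St.run0, IE.val_ww, IE.cost_ww, CE.val_ww, CE.cost_ww]
    exact ⟨_, rfl⟩
  | seq p p' ih ih' =>
    intro e M w
    obtain ⟨w1, h1⟩ := ih e M w
    simp only [St.run, St.run0, h1]
    exact ih' _ _ _
  | loop n p ih =>
    intro e M w
    simp only [St.run, St.run0, IE.val_ww, IE.cost_ww]
    induction n.val M e with
    | zero => exact ⟨_, rfl⟩
    | succ N h =>
      obtain ⟨w1, h1⟩ := h
      simp only [h1]
      exact ih _ _ _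

theorem St.word_mono (ω : ℂ) (P : St) : ∀ e M, M.word ≤ (P.run0 ω e M).word := by
  induction P with
  | setI a i j k x => intro e M; exact le_max_left _ _
  | setC a i j k z => intro e M; exact le_rfl
  | seq p p' ih ih' => intro e M; exact (ih e M).trans (ih' _ _)
  | loop n p ih =>
    intro e M
    simp only [St.run0]
    induction n.val M e with
    | zero => exact le_rfl
    | succ N h => exact h.trans (ih _ _)

theorem St.cells (ω : ℂ) (W : ℕ) (P : St) : ∀ e M, (∀ a i j k, M.I a i j k ≤ W) →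
    (P.run0 ω e M).word ≤ W → ∀ a i j k, (P.run0 ω e M).I a i j k ≤ W := by
  induction P with
  | setI a i j k x =>
    intro e M h1 h2 a' i' j' k'
    simp only [St.run0, upd] at h2 ⊢
    split_ifs
    · exact (le_max_right _ _).trans h2
    · exact h1 _ _ _ _
  | setC a i j k z => intro e M h1 _; exact h1
  | seq p p' ih ih' =>
    intro e M h1 h2
    exact ih' _ _ (ih e M h1 ((p'.word_mono ω _ _).trans h2)) h2
  | loop n p ih =>
    intro e M h1
    simp only [St.run0]
    induction n.val M e with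
    | zero => intro _; exact h1
    | succ N h => intro h2; exact ih _ _ (h ((p.word_mono ω _ _).trans h2)) h2

/-- All cells and all counters are at most `W`. -/
def Bnd (W : ℕ) (M : Mem) (e : ℕ → ℕ) : Prop :=
  (∀ a i j k, M.I a i j k ≤ W) ∧ ∀ k, e k ≤ W

/-- Bounded by a power of any large bound for the cells and the counters. -/
def Poly (f : Mem → (ℕ → ℕ) → ℕ) : Prop :=
  ∃ E L, ∀ W, L ≤ W → ∀ M e, Bnd W M e → f M e ≤ W ^ E

theorem Bnd.push {W W' k : ℕ} {M : Mem} {e : ℕ → ℕ} (h : Bnd W M e) (h1 : W ≤ W') (h2 : k ≤ W') :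
    Bnd W' M (push k e) :=
  ⟨fun a i j k => (h.1 a i j k).trans h1, fun l => by
    cases l with
    | zero => exact h2
    | succ l => exact (h.2 l).trans h1⟩

theorem Poly.mono {f g : Mem → (ℕ → ℕ) → ℕ} (hg : Poly g) (h : ∀ M e, f M e ≤ g M e) :
    Poly f := by
  obtain ⟨E, L, hg⟩ := hg
  exact ⟨E, L, fun W hW M e hb => (h M e).trans (hg W hW M e hb)⟩

theorem Poly.add {f g : Mem → (ℕ → ℕ) → ℕ} (hf : Poly f) (hg : Poly g) :
    Poly fun M e => f M e + g M e := by
  obtain ⟨E, L, hf⟩ := hf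
  obtain ⟨E', L', hg⟩ := hg
  refine ⟨E + E' + 1, L + L' + 2, fun W hW M e hb => ?_⟩
  have h1 := (hf W (by omega) M e hb).trans
    (Nat.pow_le_pow_right (show 0 < W by omega) (Nat.le_add_right E E'))
  have h2 := (hg W (by omega) M e hb).trans
    (Nat.pow_le_pow_right (show 0 < W by omega) (Nat.le_add_left E' E))
  have h3 : W ^ (E + E') * 2 ≤ W ^ (E + E') * W := Nat.mul_le_mul_left _ (by omega)
  rw [pow_succ]
  show f M e + g M e ≤ _
  omega

theorem Poly.mul {f g : Mem → (ℕ → ℕ) → ℕ} (hf : Poly f) (hg : Poly g) :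
    Poly fun M e => f M e * g M e := by
  obtain ⟨E, L, hf⟩ := hf
  obtain ⟨E', L', hg⟩ := hg
  refine ⟨E + E', L + L', fun W hW M e hb => ?_⟩
  rw [pow_add]
  exact Nat.mul_le_mul (hf W (by omega) M e hb) (hg W (by omega) M e hb)

theorem Poly.max {f g : Mem → (ℕ → ℕ) → ℕ} (hf : Poly f) (hg : Poly g) :
    Poly fun M e => max (f M e) (g M e) :=
  (hf.add hg).mono fun _ _ => max_le (Nat.le_add_right _ _) (Nat.le_add_left _ _)

theorem Poly.sup {n n' f : Mem → (ℕ → ℕ) → ℕ} (hn : Poly n') (h : ∀ M e, n M e ≤ n' M e)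
    (hf : Poly f) : Poly fun M e => (range (n M e)).sup fun k => f M (push k e) := by
  obtain ⟨E, L, hn⟩ := hn
  obtain ⟨E', L', hf⟩ := hf
  refine ⟨(E + 1) * E', L + L' + 1, fun W hW M e hb => Finset.sup_le fun k hk => ?_⟩
  have h1 : W ≤ W ^ (E + 1) := Nat.le_self_pow (by omega) _
  have h2 : W ^ E ≤ W ^ (E + 1) := Nat.pow_le_pow_right (by omega) (by omega)
  have h3 := (h M e).trans (hn W (by omega) M e hb)
  have h4 := mem_range.1 hk
  rw [pow_mul]
  exact hf _ (by omega) M _ (hb.push h1 (by omega))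

theorem IE.val_le_big (M : Mem) (x : IE) (e : ℕ → ℕ) : x.val M e ≤ x.big M e := by
  cases x
  · exact le_rfl
  · exact le_rfl
  all_goals exact le_max_left _ _

theorem IE.poly (x : IE) : Poly fun M e => x.big M e := by
  induction x with
  | lit n => exact ⟨1, n, fun W hW _ _ _ => by simpa [IE.big] using hW⟩
  | var k => exact ⟨1, 0, fun W _ _ _ hb => by simpa [IE.big] using hb.2 k⟩
  | get a i j k hi hj hk =>
    refine Poly.max ⟨1, 0, fun W _ M e hb => ?_⟩ (hi.max (hj.max hk))
    simpa [IE.val] using hb.1 _ _ _ _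
  | add x y hx hy =>
    exact Poly.max ((hx.add hy).mono fun M e =>
      Nat.add_le_add (x.val_le_big M e) (y.val_le_big M e)) (hx.max hy)
  | sub x y hx hy =>
    exact Poly.max (hx.mono fun M e => (Nat.sub_le _ _).trans (x.val_le_big M e)) (hx.max hy)
  | mul x y hx hy =>
    exact Poly.max ((hx.mul hy).mono fun M e =>
      Nat.mul_le_mul (x.val_le_big M e) (y.val_le_big M e)) (hx.max hy)
  | div x y hx hy =>
    exact Poly.max (hx.mono fun M e => (Nat.div_le_self _ _).trans (x.val_le_big M e)) (hx.max hy)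
  | mod x y hx hy =>
    exact Poly.max (hx.mono fun M e => (Nat.mod_le _ _).trans (x.val_le_big M e)) (hx.max hy)
  | sum n x hn hx =>
    have hs := Poly.sup hn (fun M e => n.val_le_big M e) hx
    refine Poly.max ((hn.mul hs).mono fun M e => ?_) (hn.max hs)
    have := sum_le_card_nsmul (range (n.val M e)) (fun k => x.val M (push k e))
      ((range (n.val M e)).sup fun k => x.big M (push k e)) fun k hk =>
        (x.val_le_big M _).trans (le_sup (f := fun k => x.big M (push k e)) hk)
    rw [card_range, smul_eq_mul] at this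
    exact this.trans (Nat.mul_le_mul_right _ (n.val_le_big M e))

theorem CE.poly (z : CE) : Poly fun M e => z.big M e := by
  induction z with
  | lit z => exact ⟨0, 0, fun _ _ _ _ _ => Nat.zero_le _⟩
  | get a i j k => exact i.poly.max (j.poly.max k.poly)
  | add x y hx hy => exact hx.max hy
  | sub x y hx hy => exact hx.max hy
  | mul x y hx hy => exact hx.max hy
  | div x y hx hy => exact hx.max hy
  | cast x => exact x.poly
  | root x => exact x.poly
  | sum n z hz => exact n.poly.max (Poly.sup n.poly (fun M e => n.val_le_big M e) hz)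
  | prod n z hz => exact n.poly.max (Poly.sup n.poly (fun M e => n.val_le_big M e) hz)

theorem St.poly (P : St) : ∃ E L, ∀ W, L ≤ W → ∀ (ω : ℂ) e M w, Bnd W M e →
    (P.run0 ω e M).word ≤ W → (P.run ω e (M.ww w)).word ≤ max w (W ^ E) := by
  induction P with
  | setI a i j k x =>
    obtain ⟨E, L, h⟩ := (i.poly.max (j.poly.max k.poly)).max x.poly
    refine ⟨E, L, fun W hW ω e M w hb _ => ?_⟩
    simp only [St.run, IE.big_ww]
    exact max_le_max le_rfl (h W hW M e hb)
  | setC a i j k z =>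
    obtain ⟨E, L, h⟩ := (i.poly.max (j.poly.max k.poly)).max z.poly
    refine ⟨E, L, fun W hW ω e M w hb _ => ?_⟩
    simp only [St.run, IE.big_ww, CE.big_ww]
    exact max_le_max le_rfl (h W hW M e hb)
  | seq p p' ih ih' =>
    obtain ⟨E, L, h⟩ := ih
    obtain ⟨E', L', h'⟩ := ih'
    refine ⟨E + E', L + L' + 1, fun W hW ω e M w hb h1 => ?_⟩
    have h2 := (p'.word_mono ω e (p.run0 ω e M)).trans h1
    have h3 := h W (by omega) ω e M w hb h2
    obtain ⟨w1, e1⟩ := p.run_ww ω e M w
    have h4 := h' W (by omega) ω e _ w1 ⟨p.cells ω W e M hb.1 h2, hb.2⟩ h1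
    have a1 : W ^ E ≤ W ^ (E + E') := Nat.pow_le_pow_right (by omega) (by omega)
    have a2 : W ^ E' ≤ W ^ (E + E') := Nat.pow_le_pow_right (by omega) (by omega)
    rw [e1] at h3
    replace h3 : w1 ≤ max w (W ^ E) := h3
    simp only [St.run, e1]
    omega
  | loop n p ih =>
    obtain ⟨E, L, h⟩ := n.poly
    obtain ⟨E', L', h'⟩ := ih
    refine ⟨(E + 1) * (E' + 1), L + L' + 1, fun W hW ω e M w hb => ?_⟩
    have h1 : W ≤ W ^ (E + 1) := Nat.le_self_pow (by omega) _
    have h2 : W ^ E ≤ W ^ (E + 1) := Nat.pow_le_pow_right (by omega) (by omega)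
    have h3 : n.big M e ≤ W ^ E := h W (by omega) M e hb
    have h4 : n.val M e ≤ W ^ (E + 1) := ((n.val_le_big M e).trans h3).trans h2
    have h5 : W ^ E ≤ W ^ ((E + 1) * (E' + 1)) := Nat.pow_le_pow_right (by omega) (by nlinarith)
    have h6 : (W ^ (E + 1)) ^ E' ≤ W ^ ((E + 1) * (E' + 1)) := by
      rw [← pow_mul]; exact Nat.pow_le_pow_right (by omega) (by nlinarith)
    simp only [St.run, St.run0, IE.val_ww, IE.cost_ww, IE.big_ww]
    generalize n.val M e = N at h4
    suffices hs : ∀ M0 : Mem, M0 = Nat.rec { M with time := M.time + (1 + n.cost M e) }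
        (fun k M' => p.run0 ω (push k e) M') N → M0.word ≤ W →
        (∀ a i j k, M0.I a i j k ≤ W) ∧ ∃ w1, w1 ≤ max w (W ^ ((E + 1) * (E' + 1))) ∧
        (Nat.rec { M.ww w with
            time := (M.ww w).time + (1 + n.cost M e), word := max (M.ww w).word (n.big M e) }
          (fun k M' => p.run ω (push k e) M') N : Mem) = M0.ww w1 by
      intro hw
      obtain ⟨_, w1, b1, b2⟩ := hs _ rfl hw
      rw [b2]; exact b1
    induction N with
    | zero =>
      rintro M0 rfl _
      exact ⟨hb.1, max w (n.big M e), by omega, rfl⟩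
    | succ N ihN =>
      rintro M0 rfl hw
      have hw' := (p.word_mono ω _ _).trans hw
      obtain ⟨b0, w1, b1, b2⟩ := ihN (by omega) _ rfl hw'
      refine ⟨p.cells ω W _ _ b0 hw, ?_⟩
      simp only [b2]
      obtain ⟨w2, e2⟩ := p.run_ww ω (push N e) _ w1
      have b3 := h' (W ^ (E + 1)) (by omega) ω (push N e) _ w1
        (Bnd.push ⟨b0, hb.2⟩ h1 (by omega)) (le_trans hw h1)
      rw [e2] at b3
      replace b3 : w2 ≤ max w1 ((W ^ (E + 1)) ^ E') := b3
      exact ⟨w2, by omega, e2⟩

end Pool.Agent.MP_f91556_lc.AP
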