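import Mathlib
import Pool.Agent.MP_f91556_lc.AP.Final
import Pool.Agent.MP_f91556_lc.AP.Word

/-! The theorem for the semantics that records all computed integers. -/

namespace Pool.Agent.MP_f91556_lc.AP

theorem main (c κ : ℕ) :
    ∃ (P : St) (o : ℕ) (δ : ℝ) (K m₀ : ℕ), 0 < δ ∧
      ∀ m d : ℕ, m₀ ≤ m → d ≤ m ^ c → ∀ (R C : Fin m → Fin d) (v : Fin m → ℂ) (ω : ℂ) (M : Mem),
        ω = Complex.exp (-2 * Real.pi * Complex.I / d) →
        M = P.run ω (fun _ => 0) (init m d R C v) →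
        (M.time : ℝ) ≤ (m : ℝ) ^ (2 - δ) ∧ M.word ≤ m ^ K ∧
        ∀ r : Fin m, ‖M.Z o r 0 0 - ∑ k : Fin m, v k * ω ^ ((R r : ℕ) * (C k : ℕ))‖ ≤
          (∑ k : Fin m, ‖v k‖) / (m : ℝ) ^ κ := by
  obtain ⟨P, o, δ, K, m₀, hδ, h⟩ := main0 c κ
  obtain ⟨E, L, hP⟩ := P.poly
  refine ⟨P, o, δ, (K + c + 1) * E, m₀ + L + 1, hδ, fun m d hm hd R C v ω M hω hM => ?_⟩
  obtain ⟨h1, h2, h3⟩ := h m d (by omega) hd R C v ω _ hω rfl
  have a1 : m ≤ m ^ (K + c + 1) := Nat.le_self_pow (by omega) _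
  have a2 : m ^ c ≤ m ^ (K + c + 1) := Nat.pow_le_pow_right (by omega) (by omega)
  have a3 : m ^ K ≤ m ^ (K + c + 1) := Nat.pow_le_pow_right (by omega) (by omega)
  have hb : Bnd (m ^ (K + c + 1)) (init m d R C v) (fun _ => 0) := by
    refine ⟨fun a i j k => ?_, fun _ => Nat.zero_le _⟩
    simp only [init]
    split_ifs with g1 g2 g3 g4 g5
    · exact a1
    · omega
    · have := (R ⟨i, g1.1⟩).2; omega
    · have := (C ⟨i, g1.1⟩).2; omega
    · omega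
    · omega
  have h4 := hP _ (by omega) ω _ _ 0 hb (h2.trans a3)
  obtain ⟨w, e⟩ := P.run_ww ω (fun _ => 0) (init m d R C v) 0
  have e0 : (init m d R C v).ww 0 = init m d R C v := rfl
  rw [e0, ← hM] at h4 e
  refine ⟨?_, ?_, ?_⟩
  · rw [e]; exact h1
  · rw [pow_mul]; omega
  · rw [e]; exact h3

end Pool.Agent.MP_f91556_lc.AP
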